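import Pool.Agent.Helper10.HB.Grp

set_option autoImplicit false
set_option linter.unusedSimpArgs false
set_option linter.unusedSectionVars false

namespace Pool.Agent.Helper10.HB

/-- average over all lists of Booleans of length `n` -/
noncomputable def Av : ℕ → (List Bool → ℝ) → ℝ
  | 0, f => f []
  | n + 1, f => (Av n (fun w => f (true :: w)) + Av n (fun w => f (false :: w))) / 2

lemma Av_zero (f : List Bool → ℝ) : Av 0 f = f [] := rfl
lemma Av_succ (n : ℕ) (f : List Bool → ℝ) :
    Av (n + 1) f = (Av n (fun w => f (true :: w)) + Av n (fun w => f (false :: w))) / 2 := rfl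

lemma Av_congr (n : ℕ) (f g : List Bool → ℝ) (h : ∀ w, w.length = n → f w = g w) :
    Av n f = Av n g := by
  induction n generalizing f g with
  | zero => exact h [] rfl
  | succ n ih =>
    rw [Av_succ, Av_succ, ih _ _ (fun w hw => h (true :: w) (by simp [hw])),
      ih _ _ (fun w hw => h (false :: w) (by simp [hw]))]

lemma Av_mono (n : ℕ) (f g : List Bool → ℝ) (h : ∀ w, w.length = n → f w ≤ g w) :
    Av n f ≤ Av n g := by
  induction n generalizing f g with
  | zero => exact h [] rfl
  | succ n ih =>
    rw [Av_succ, Av_succ]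
    have h1 := ih _ _ (fun w hw => h (true :: w) (by simp [hw]))
    have h2 := ih _ _ (fun w hw => h (false :: w) (by simp [hw]))
    linarith

lemma Av_const (n : ℕ) (c : ℝ) : Av n (fun _ => c) = c := by
  induction n with
  | zero => rfl
  | succ n ih => rw [Av_succ, ih]; ring

lemma Av_add (n : ℕ) (f g : List Bool → ℝ) : Av n (fun w => f w + g w) = Av n f + Av n g := by
  induction n generalizing f g with
  | zero => rfl
  | succ n ih => rw [Av_succ, Av_succ, Av_succ, ih, ih]; ring

lemma Av_sub (n : ℕ) (f g : List Bool → ℝ) : Av n (fun w => f w - g w) = Av n f - Av n g := by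
  induction n generalizing f g with
  | zero => rfl
  | succ n ih => rw [Av_succ, Av_succ, Av_succ, ih, ih]; ring

lemma Av_mul_left (n : ℕ) (c : ℝ) (f : List Bool → ℝ) :
    Av n (fun w => c * f w) = c * Av n f := by
  induction n generalizing f with
  | zero => rfl
  | succ n ih => rw [Av_succ, Av_succ, ih, ih]; ring

lemma Av_mul_right (n : ℕ) (c : ℝ) (f : List Bool → ℝ) :
    Av n (fun w => f w * c) = Av n f * c := by
  simp only [mul_comm _ c]; exact Av_mul_left n c f

lemma Av_div (n : ℕ) (c : ℝ) (f : List Bool → ℝ) :
    Av n (fun w => f w / c) = Av n f / c := by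
  simp only [div_eq_mul_inv]; exact Av_mul_right n _ f

lemma Av_sum {ι : Type} (s : Finset ι) (n : ℕ) (f : ι → List Bool → ℝ) :
    Av n (fun w => ∑ i ∈ s, f i w) = ∑ i ∈ s, Av n (f i) := by
  classical
  induction s using Finset.induction_on with
  | empty => simp [Av_const]
  | insert a s ha ih => simp only [Finset.sum_insert ha, Av_add, ih]

lemma Av_append (m n : ℕ) (f : List Bool → ℝ) :
    Av (m + n) f = Av m (fun p => Av n (fun y => f (p ++ y))) := by
  induction m generalizing f with
  | zero => simp [Av_zero]
  | succ m ih =>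
    rw [Nat.succ_add, Av_succ, ih, ih, Av_succ]
    rfl

lemma Av_comm (m n : ℕ) (f : List Bool → List Bool → ℝ) :
    Av m (fun p => Av n (fun y => f p y)) = Av n (fun y => Av m (fun p => f p y)) := by
  induction m generalizing f with
  | zero => rfl
  | succ m ih =>
    rw [Av_succ, ih, ih, ← Av_add, ← Av_div]
    rfl

lemma Av_nonneg (n : ℕ) (f : List Bool → ℝ) (h : ∀ w, w.length = n → 0 ≤ f w) : 0 ≤ Av n f := by
  have := Av_mono n (fun _ => 0) f h
  rwa [Av_const] at this

lemma half_pow (p : ℝ) (hp : 1 ≤ p) (x y : ℝ) :
    |(x + y) / 2| ^ p ≤ (|x| ^ p + |y| ^ p) / 2 := by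
  have hc := (convexOn_rpow hp).2 (Set.mem_Ici.2 (abs_nonneg x)) (Set.mem_Ici.2 (abs_nonneg y))
    (by norm_num : (0:ℝ) ≤ 1 / 2) (by norm_num : (0:ℝ) ≤ 1 / 2) (by norm_num)
  simp only [smul_eq_mul] at hc
  have h1 : |(x + y) / 2| ≤ 1 / 2 * |x| + 1 / 2 * |y| := by
    rw [abs_div, abs_two]
    have := abs_add_le x y
    linarith
  refine (Real.rpow_le_rpow (abs_nonneg _) h1 (by linarith)).trans (hc.trans (le_of_eq ?_))
  ring

lemma Av_pow_le (p : ℝ) (hp : 1 ≤ p) (n : ℕ) (f : List Bool → ℝ) :
    |Av n f| ^ p ≤ Av n (fun w => |f w| ^ p) := by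
  induction n generalizing f with
  | zero => exact le_rfl
  | succ n ih =>
    rw [Av_succ, Av_succ]
    refine (half_pow p hp _ _).trans ?_
    have h1 := ih (fun w => f (true :: w))
    have h2 := ih (fun w => f (false :: w))
    linarith

/-- all the lists of Booleans of length `n` -/
def wds : ℕ → Finset (List Bool)
  | 0 => {[]}
  | n + 1 => (wds n).image (List.cons true) ∪ (wds n).image (List.cons false)

lemma length_of_mem_wds (n : ℕ) (w : List Bool) (h : w ∈ wds n) : w.length = n := by
  induction n generalizing w with
  | zero => simp [wds] at h; simp [h]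
  | succ n ih =>
    simp only [wds, Finset.mem_union, Finset.mem_image] at h
    rcases h with ⟨v, hv, rfl⟩ | ⟨v, hv, rfl⟩ <;> simp [ih v hv]

lemma sum_wds (n : ℕ) (f : List Bool → ℝ) : ∑ w ∈ wds n, f w = 2 ^ n * Av n f := by
  induction n generalizing f with
  | zero => simp [wds, Av_zero]
  | succ n ih =>
    rw [wds, Finset.sum_union, Finset.sum_image, Finset.sum_image, ih, ih, Av_succ]
    · ring
    · intro a _ b _ h; exact (List.cons.inj h).2
    · intro a _ b _ h; exact (List.cons.inj h).2
    · rw [Finset.disjoint_left]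
      intro a ha hb
      rw [Finset.mem_image] at ha hb
      obtain ⟨v, _, rfl⟩ := ha
      obtain ⟨w, _, h⟩ := hb
      exact absurd (List.cons.inj h).1 (by simp)

section
variable (α : Type*) [TwoLetters α]

/-- positive word -/
def pw (l : List Bool) : Wd α :=
  l.map (fun b => ((if b then TwoLetters.a else TwoLetters.b : α), true))

lemma pw_append (l m : List Bool) : pw α (l ++ m) = pw α l ++ pw α m := by simp [pw]
@[simp] lemma pw_length (l : List Bool) : (pw α l).length = l.length := by simp [pw]

/-- the group element of a positive word -/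
def pg (l : List Bool) : F α := FreeGroup.mk (pw α l)

lemma pg_append (l m : List Bool) : pg α (l ++ m) = pg α l * pg α m := by
  unfold pg; rw [pw_append, FreeGroup.mul_mk]

@[simp] lemma pg_nil : pg α [] = 1 := rfl

lemma pw_isReduced (l : List Bool) : FreeGroup.IsReduced (pw α l) := by
  unfold FreeGroup.IsReduced pw
  rw [List.isChain_map]
  induction l with
  | nil => exact List.isChain_nil
  | cons a l ih =>
    cases l with
    | nil => exact List.isChain_singleton _
    | cons b l =>
      rw [List.isChain_cons_cons]
      exact ⟨fun _ => rfl, ih⟩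

variable [DecidableEq α]

@[simp] lemma toWord_pg (l : List Bool) : (pg α l).toWord = pw α l := by
  unfold pg; rw [FreeGroup.toWord_mk, (pw_isReduced α l).reduce_eq]

lemma pw_injective : Function.Injective (pw α) := by
  unfold pw
  apply List.map_injective_iff.2
  intro a b h
  have h1 := TwoLetters.ne (α := α)
  have h2 := h1.symm
  cases a <;> cases b <;> simp_all

lemma pg_injective : Function.Injective (pg α) := fun a b h => pw_injective α (by
  rw [← toWord_pg, ← toWord_pg, h])

/-- a negative word and a positive word have no common beginning -/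
lemma lcp_neg_pos (q w : List Bool) : lcp ((pg α q)⁻¹).toWord (pg α w).toWord = 0 := by
  rw [FreeGroup.toWord_inv, toWord_pg, toWord_pg]
  cases h1 : FreeGroup.invRev (pw α q) with
  | nil => simp
  | cons a l =>
    cases w with
    | nil => simp [pw]
    | cons b m =>
      have h2 : a ∈ FreeGroup.invRev (pw α q) := by rw [h1]; simp
      have h3 : a.2 = false := by
        unfold FreeGroup.invRev pw at h2
        simp only [List.map_map, List.mem_reverse, List.mem_map, Function.comp] at h2
        obtain ⟨c, _, rfl⟩ := h2
        simp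
      unfold pw
      rw [List.map_cons, lcp_cons_cons, if_neg]
      intro h4
      rw [h4] at h3
      simp at h3

/-- sign of the letter number `L` -/
noncomputable def v (L : ℕ) (w : List Bool) : ℝ := u L (pw α w)

lemma v_of_lt (L : ℕ) (w : List Bool) (h : L < w.length) : v α L w = if w[L] then 1 else -1 := by
  unfold v u pw
  have h2 := (TwoLetters.ne (α := α)).symm
  rw [List.getElem?_map, List.getElem?_eq_getElem h]
  simp only [Option.map_some]
  cases w[L] <;> simp [h2]

lemma v_append_right (L : ℕ) (p y : List Bool) (h : p.length ≤ L) :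
    v α L (p ++ y) = v α (L - p.length) y := by
  unfold v u
  rw [pw_append, List.getElem?_append_right (by simpa using h), pw_length]

lemma v_append_left (L : ℕ) (p y : List Bool) (h : L < p.length) :
    v α L (p ++ y) = v α L p := by
  unfold v u
  rw [pw_append, List.getElem?_append_left (by simpa using h)]

lemma v_succ_cons (L : ℕ) (b : Bool) (y : List Bool) : v α (L + 1) (b :: y) = v α L y := by
  unfold v u pw
  simp

lemma v_zero_cons (b : Bool) (y : List Bool) : v α 0 (b :: y) = if b then 1 else -1 := by
  unfold v u pw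
  have h2 := (TwoLetters.ne (α := α)).symm
  cases b <;> simp [h2]

lemma abs_v_le (L : ℕ) (w : List Bool) : |v α L w| ≤ 1 := abs_u_le _ _

lemma mul_v_pow_le (p : ℝ) (hp : 1 ≤ p) (x : ℝ) (L : ℕ) (w : List Bool) :
    |x * v α L w| ^ p ≤ |x| ^ p := by
  refine Real.rpow_le_rpow (abs_nonneg _) ?_ (by linarith)
  rw [abs_mul]
  have := mul_le_mul_of_nonneg_left (abs_v_le α L w) (abs_nonneg x)
  linarith

lemma v_sq (L : ℕ) (w : List Bool) (h : L < w.length) : v α L w * v α L w = 1 := by
  rw [v_of_lt α L w h]
  cases w[L] <;> simp

lemma Av_v (m j : ℕ) (h : j < m) : Av m (v α j) = 0 := by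
  induction m generalizing j with
  | zero => omega
  | succ m ih =>
    rw [Av_succ]
    cases j with
    | zero =>
      simp only [v_zero_cons, if_true, Av_const]
      norm_num [Av_const]
    | succ j =>
      simp only [v_succ_cons]
      rw [show (fun w => v α j w) = v α j from rfl, ih j (by omega)]
      norm_num

end

end Pool.Agent.Helper10.HB
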