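import Pool.Agent.Helper10.HB.Fin

set_option autoImplicit false
set_option linter.unusedSimpArgs false
set_option linter.unusedSectionVars false

namespace Pool.Agent.Helper10.HB

variable {α : Type*} [TwoLetters α] [DecidableEq α] (w : ℕ → ℝ)

lemma Bdd.nonneg {ρ : ℝ} {β : F α → F α → F α → ℝ} {C : ℝ} (hB : Bdd ρ β C) : 0 ≤ C := by
  have := hB 1 1 1 ∅
  simpa using this

lemma gg_step (ρ : ℝ) (hρ : 1 ≤ ρ) (β : F α → F α → F α → ℝ) (C : ℝ) (hB : Bdd ρ β C)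
    (hd : Rel w β) (s0 s m L : ℕ) (hs : 1 ≤ s) (hn : s0 ≤ s) (h1 : s + 2 ≤ L)
    (h2 : L < s + 2 + m) :
    |gg w β (s + 1) m L - gg w β s (m + 1) L| ≤ (C / 2 ^ s0) ^ (1 / ρ) := by
  have h := G_diff ρ hρ β C hB (GG w β) (rel_B w β hd) s m L hs h1 h2
  have hC := hB.nonneg
  have hρ0 : 0 < ρ := by linarith
  have h3 : C / 2 ^ s ≤ C / 2 ^ s0 := by
    have h4 : (2 : ℝ) ^ s0 ≤ 2 ^ s := pow_le_pow_right₀ (by norm_num) hn
    gcongr
  have h5 : |gg w β (s + 1) m L - gg w β s (m + 1) L| ^ ρ ≤ C / 2 ^ s0 := h.trans h3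
  have h6 := Real.rpow_le_rpow (by positivity) h5 (by positivity : (0:ℝ) ≤ 1 / ρ)
  rwa [← Real.rpow_mul (abs_nonneg _), mul_one_div_cancel hρ0.ne', Real.rpow_one] at h6

lemma gg_tele (ρ : ℝ) (hρ : 1 ≤ ρ) (β : F α → F α → F α → ℝ) (C : ℝ) (hB : Bdd ρ β C)
    (hd : Rel w β) (s0 s M L : ℕ) (hs : 1 ≤ s) (hn : s0 ≤ s) (hM : L < M) (i : ℕ)
    (hi : s + i + 1 ≤ L) :
    |gg w β (s + i) (M - (s + i) - 1) L - gg w β s (M - s - 1) L| ≤
      i * (C / 2 ^ s0) ^ (1 / ρ) := by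
  induction i with
  | zero => simp
  | succ i ih =>
    have h1 := ih (by omega)
    have h2 := gg_step w ρ hρ β C hB hd s0 (s + i) (M - (s + (i + 1)) - 1) L (by omega)
      (by omega) (by omega) (by omega)
    rw [show M - (s + (i + 1)) - 1 + 1 = M - (s + i) - 1 by omega] at h2
    rw [show s + i + 1 = s + (i + 1) by omega] at h2
    have h3 := abs_add_le (gg w β (s + (i + 1)) (M - (s + (i + 1)) - 1) L -
      gg w β (s + i) (M - (s + i) - 1) L)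
      (gg w β (s + i) (M - (s + i) - 1) L - gg w β s (M - s - 1) L)
    rw [sub_add_sub_cancel] at h3
    push_cast
    linarith

/-- the error term -/
noncomputable def er (ρ C : ℝ) (j : ℕ) : ℝ := ((4 ^ j : ℕ) : ℝ) ^ ρ * (C / 2 ^ (3 * 4 ^ j))

/-- the lower bound for a pair of branching places -/
lemma pair (ρ : ℝ) (hρ : 1 ≤ ρ) (β : F α → F α → F α → ℝ) (C : ℝ) (hB : Bdd ρ β C)
    (hd : Rel w β) (j : ℕ) (k i M : ℕ) (hi : i < 4 ^ j) (hM : 8 * 4 ^ j < M) :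
    |w (j + 1)| ^ ρ / 3 ^ ρ - er ρ C j ≤ Q ρ β k (3 * 4 ^ j + i) (M - (3 * 4 ^ j + i) - 1) +
      Q ρ β k (4 * 4 ^ j + i) (M - (4 * 4 ^ j + i) - 1) := by
  have hL : 2 * 4 ^ (j + 1) = 8 * 4 ^ j := by rw [pow_succ]; omega
  have hp : 0 < 4 ^ j := by positivity
  have hC := hB.nonneg
  have hρ0 : 0 < ρ := by linarith
  have a1 := XX_eq w β hd k (3 * 4 ^ j + i) (M - (3 * 4 ^ j + i) - 1) (2 * 4 ^ (j + 1))
    (by omega) (by omega)
  have a2 := XX_eq w β hd k (4 * 4 ^ j + i) (M - (4 * 4 ^ j + i) - 1) (2 * 4 ^ (j + 1))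
    (by omega) (by omega)
  rw [T_H α w _ _ _ (by omega) (by omega) (by omega)] at a1 a2
  rw [show 3 * 4 ^ j + i + (M - (3 * 4 ^ j + i) - 1 + 1) = M by omega] at a1
  rw [show 4 * 4 ^ j + i + (M - (4 * 4 ^ j + i) - 1 + 1) = M by omega] at a2
  rw [if_neg (by rw [pow_succ]; omega)] at a1
  rw [if_pos (by rw [pow_succ]; omega)] at a2
  have b := gg_tele w ρ hρ β C hB hd (3 * 4 ^ j) (3 * 4 ^ j + i) M (2 * 4 ^ (j + 1)) (by omega)
    (by omega) (by omega) (4 ^ j) (by omega)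
  rw [show 3 * 4 ^ j + i + 4 ^ j = 4 * 4 ^ j + i by omega] at b
  set x := XX β k (3 * 4 ^ j + i) (M - (3 * 4 ^ j + i) - 1) (2 * 4 ^ (j + 1)) with hx
  set y := XX β k (4 * 4 ^ j + i) (M - (4 * 4 ^ j + i) - 1) (2 * 4 ^ (j + 1)) with hy
  set η := ((4 ^ j : ℕ) : ℝ) * (C / 2 ^ (3 * 4 ^ j)) ^ (1 / ρ) with hη
  have hη0 : 0 ≤ η := by positivity
  have d : |w (j + 1)| ≤ |x| + |y| + η := by
    have e1 : w (j + 1) = (y - x) - (gg w β (4 * 4 ^ j + i) (M - (4 * 4 ^ j + i) - 1)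
        (2 * 4 ^ (j + 1)) - gg w β (3 * 4 ^ j + i) (M - (3 * 4 ^ j + i) - 1)
        (2 * 4 ^ (j + 1))) := by
      rw [a1, a2]; ring
    rw [e1]
    refine (abs_sub _ _).trans ?_
    have e2 := abs_sub y x
    linarith
  have e1 : |x| ^ ρ ≤ Q ρ β k (3 * 4 ^ j + i) (M - (3 * 4 ^ j + i) - 1) :=
    XX_pow_le ρ hρ β _ _ _ _
  have e2 : |y| ^ ρ ≤ Q ρ β k (4 * 4 ^ j + i) (M - (4 * 4 ^ j + i) - 1) :=
    XX_pow_le ρ hρ β _ _ _ _
  have f := (Real.rpow_le_rpow (abs_nonneg _) d hρ0.le).trans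
    (three_pow ρ hρ _ _ _ (abs_nonneg x) (abs_nonneg y) hη0)
  have g : η ^ ρ = er ρ C j := by
    rw [hη, Real.mul_rpow (by positivity) (by positivity), ← Real.rpow_mul (by positivity),
      one_div_mul_cancel hρ0.ne', Real.rpow_one]
    rfl
  rw [g] at f
  have h3 : (0 : ℝ) < 3 ^ ρ := by positivity
  have h4 : |w (j + 1)| ^ ρ / 3 ^ ρ ≤ |x| ^ ρ + |y| ^ ρ + er ρ C j := by
    rw [div_le_iff₀ h3]
    linarith
  linarith

/-- each scale contributes its weight -/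
lemma scale (ρ : ℝ) (hρ : 1 ≤ ρ) (β : F α → F α → F α → ℝ) (C : ℝ) (hB : Bdd ρ β C)
    (hd : Rel w β) (j : ℕ) (k M : ℕ) (hM : 8 * 4 ^ j < M) :
    (4 : ℝ) ^ j * (|w (j + 1)| ^ ρ / 3 ^ ρ) - 4 ^ j * er ρ C j ≤
      ∑ s ∈ Finset.Ico (3 * 4 ^ j) (5 * 4 ^ j), Q ρ β k s (M - s - 1) := by
  have hp : 0 < 4 ^ j := by positivity
  rw [← Finset.sum_Ico_consecutive _ (show 3 * 4 ^ j ≤ 4 * 4 ^ j by omega)
    (show 4 * 4 ^ j ≤ 5 * 4 ^ j by omega), Finset.sum_Ico_eq_sum_range,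
    Finset.sum_Ico_eq_sum_range]
  rw [show 4 * 4 ^ j - 3 * 4 ^ j = 4 ^ j by omega, show 5 * 4 ^ j - 4 * 4 ^ j = 4 ^ j by omega]
  rw [← Finset.sum_add_distrib]
  have h : ∑ _i ∈ Finset.range (4 ^ j), (|w (j + 1)| ^ ρ / 3 ^ ρ - er ρ C j) =
      (4 : ℝ) ^ j * (|w (j + 1)| ^ ρ / 3 ^ ρ) - 4 ^ j * er ρ C j := by
    rw [Finset.sum_const, Finset.card_range, nsmul_eq_mul]
    push_cast
    ring
  rw [← h]
  apply Finset.sum_le_sum
  intro i hi
  rw [Finset.mem_range] at hi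
  exact pair w ρ hρ β C hB hd j k i M hi hM

lemma many (ρ : ℝ) (hρ : 1 ≤ ρ) (β : F α → F α → F α → ℝ) (C : ℝ) (hB : Bdd ρ β C)
    (hd : Rel w β) (k M I : ℕ) (hM : 8 * 4 ^ I < M) :
    ∑ j ∈ Finset.range I, ((4 : ℝ) ^ j * (|w (j + 1)| ^ ρ / 3 ^ ρ) - 4 ^ j * er ρ C j) ≤
      ∑ s ∈ Finset.range (3 * 4 ^ I), Q ρ β k s (M - s - 1) := by
  induction I with
  | zero =>
    simp only [Finset.range_zero, Finset.sum_empty]
    exact Finset.sum_nonneg fun s _ => Q_nonneg ρ hρ β k s _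
  | succ I ih =>
    have hle : 4 ^ (I + 1) = 4 * 4 ^ I := by ring
    have h1 := ih (by omega)
    have h2 := scale w ρ hρ β C hB hd I k M (by omega)
    have h3 : ∑ s ∈ Finset.range (3 * 4 ^ I), Q ρ β k s (M - s - 1) +
        ∑ s ∈ Finset.Ico (3 * 4 ^ I) (5 * 4 ^ I), Q ρ β k s (M - s - 1) ≤
        ∑ s ∈ Finset.range (3 * 4 ^ (I + 1)), Q ρ β k s (M - s - 1) := by
      rw [Finset.sum_range_add_sum_Ico _ (by omega)]
      apply Finset.sum_le_sum_of_subset_of_nonneg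
      · intro x hx
        rw [Finset.mem_range] at hx ⊢
        omega
      · intro x _ _
        exact Q_nonneg ρ hρ β k x _
    rw [Finset.sum_range_succ]
    linarith

lemma shift_le (Z : ℕ → ℝ) (hZ : ∀ n, 0 ≤ Z n) (a R N : ℕ) (h : a + R ≤ N) :
    ∑ i ∈ Finset.range R, Z (i + a) ≤ ∑ i ∈ Finset.range N, Z i := by
  have h1 : ∑ i ∈ Finset.range R, Z (i + a) = ∑ i ∈ Finset.Ico a (a + R), Z i := by
    rw [Finset.sum_Ico_eq_sum_range, Nat.add_sub_cancel_left]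
    simp only [Nat.add_comm]
  rw [h1]
  apply Finset.sum_le_sum_of_subset_of_nonneg
  · intro x hx
    rw [Finset.mem_Ico] at hx
    rw [Finset.mem_range]
    omega
  · intro x _ _
    exact hZ x

/-- the upper bound over the box -/
lemma box (ρ : ℝ) (hρ : 1 ≤ ρ) (β : F α → F α → F α → ℝ) (C : ℝ) (hB : Bdd ρ β C) (R : ℕ) :
    ∑ k ∈ Finset.range R, ∑ t ∈ Finset.range R, ∑ s ∈ Finset.range R,
      Q ρ β k s (R + t - s - 1) ≤ 4 * (R : ℝ) ^ 2 * C := by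
  set Z : ℕ → ℕ → ℕ → ℝ := fun N s m => if s ≤ N then Q ρ β (N - s) s m else 0 with hZ
  have hZ0 : ∀ N s m, 0 ≤ Z N s m := by
    intro N s m
    simp only [hZ]
    split_ifs
    · exact Q_nonneg ρ hρ _ _ _ _
    · exact le_rfl
  have h1 : ∑ k ∈ Finset.range R, ∑ t ∈ Finset.range R, ∑ s ∈ Finset.range R,
      Q ρ β k s (R + t - s - 1) = ∑ s ∈ Finset.range R, ∑ k ∈ Finset.range R,
        ∑ t ∈ Finset.range R, Z (k + s) s (t + (R - 1 - s)) := by
    have h2 : ∀ k ∈ Finset.range R, ∑ t ∈ Finset.range R, ∑ s ∈ Finset.range R,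
      Q ρ β k s (R + t - s - 1) = ∑ s ∈ Finset.range R, ∑ t ∈ Finset.range R,
        Z (k + s) s (t + (R - 1 - s)) := by
      intro k _
      rw [Finset.sum_comm]
      refine Finset.sum_congr rfl fun s hs => Finset.sum_congr rfl fun t _ => ?_
      rw [Finset.mem_range] at hs
      simp only [hZ]
      rw [if_pos (by omega), show k + s - s = k by omega,
        show t + (R - 1 - s) = R + t - s - 1 by omega]
    rw [Finset.sum_congr rfl h2, Finset.sum_comm]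
  rw [h1]
  have h3 : ∑ s ∈ Finset.range R, ∑ k ∈ Finset.range R, ∑ t ∈ Finset.range R,
      Z (k + s) s (t + (R - 1 - s)) ≤ ∑ s ∈ Finset.range R, ∑ N ∈ Finset.range (2 * R),
        ∑ m ∈ Finset.range (2 * R), Z N s m := by
    apply Finset.sum_le_sum
    intro s hs
    rw [Finset.mem_range] at hs
    have h4 : ∑ k ∈ Finset.range R, ∑ t ∈ Finset.range R, Z (k + s) s (t + (R - 1 - s)) ≤
        ∑ k ∈ Finset.range R, ∑ m ∈ Finset.range (2 * R), Z (k + s) s m :=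
      Finset.sum_le_sum fun k _ => shift_le (fun m => Z (k + s) s m) (fun m => hZ0 _ _ _) _ _ _
        (by omega)
    refine h4.trans ?_
    exact shift_le (fun N => ∑ m ∈ Finset.range (2 * R), Z N s m)
      (fun N => Finset.sum_nonneg fun m _ => hZ0 _ _ _) _ _ _ (by omega)
  refine h3.trans ?_
  rw [Finset.sum_comm]
  have h5 : ∀ N ∈ Finset.range (2 * R), ∑ s ∈ Finset.range R, ∑ m ∈ Finset.range (2 * R),
      Z N s m ≤ ∑ _m ∈ Finset.range (2 * R), C := by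
    intro N _
    rw [Finset.sum_comm]
    apply Finset.sum_le_sum
    intro m _
    have h6 : ∑ s ∈ Finset.range R, Z N s m ≤
        ∑ s ∈ Finset.range (N + 1), Q ρ β (N - s) s m := by
      have h7 : ∑ s ∈ Finset.range R, Z N s m =
          ∑ s ∈ (Finset.range R).filter (fun s => s ≤ N), Q ρ β (N - s) s m := by
        rw [Finset.sum_filter]
      rw [h7]
      apply Finset.sum_le_sum_of_subset_of_nonneg
      · intro x hx
        rw [Finset.mem_filter] at hx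
        rw [Finset.mem_range]
        omega
      · intro x _ _
        exact Q_nonneg ρ hρ _ _ _ _
    refine h6.trans ?_
    have h8 := sum_Q_le ρ β C hB N m
    rw [← Finset.sum_range_reflect] at h8
    refine le_trans (le_of_eq ?_) h8
    apply Finset.sum_congr rfl
    intro s hs
    rw [Finset.mem_range] at hs
    rw [show N + 1 - 1 - s = N - s by omega, show N - (N - s) = s by omega]
  refine (Finset.sum_le_sum h5).trans (le_of_eq ?_)
  rw [Finset.sum_const, Finset.sum_const, Finset.card_range, nsmul_eq_mul, nsmul_eq_mul]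
  push_cast
  ring

lemma summable_er (ρ C : ℝ) (hC : 0 ≤ C) : Summable (fun j : ℕ => (4 : ℝ) ^ j * er ρ C j) := by
  have h1 : Summable (fun m : ℕ => (m : ℝ) ^ (⌈ρ⌉₊ + 1) * (1 / 8 : ℝ) ^ m) :=
    summable_pow_mul_geometric_of_norm_lt_one _ (by norm_num [abs_of_pos])
  have h2 := (h1.comp_injective (Nat.pow_right_injective (by norm_num : 2 ≤ 4))).mul_left C
  refine Summable.of_nonneg_of_le (fun j => ?_) (fun j => ?_) h2
  · unfold er; positivity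
  · simp only [Function.comp]
    unfold er
    have h3 : (1 : ℝ) ≤ ((4 ^ j : ℕ) : ℝ) := by
      exact_mod_cast Nat.one_le_pow _ _ (by norm_num)
    have h4 : ((4 ^ j : ℕ) : ℝ) ^ ρ ≤ ((4 ^ j : ℕ) : ℝ) ^ ⌈ρ⌉₊ := by
      rw [← Real.rpow_natCast]
      exact Real.rpow_le_rpow_of_exponent_le h3 (Nat.le_ceil ρ)
    have h5 : (2 : ℝ) ^ (3 * 4 ^ j) = 8 ^ (4 ^ j) := by rw [pow_mul]; norm_num
    rw [h5]
    have h6 : (1 / 8 : ℝ) ^ (4 ^ j) = 1 / 8 ^ (4 ^ j) := by rw [one_div_pow]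
    rw [h6]
    have h7 : (4 : ℝ) ^ j = ((4 ^ j : ℕ) : ℝ) := by push_cast; rfl
    rw [h7]
    calc ((4 ^ j : ℕ) : ℝ) * (((4 ^ j : ℕ) : ℝ) ^ ρ * (C / 8 ^ 4 ^ j)) ≤
        ((4 ^ j : ℕ) : ℝ) * (((4 ^ j : ℕ) : ℝ) ^ ⌈ρ⌉₊ * (C / 8 ^ 4 ^ j)) := by gcongr
      _ = C * (((4 ^ j : ℕ) : ℝ) ^ (⌈ρ⌉₊ + 1) * (1 / 8 ^ 4 ^ j)) := by ring

/-- a bounded primitive forces the weights to be summable -/
theorem weights_summable (ρ : ℝ) (hρ : 1 ≤ ρ) (β : F α → F α → F α → ℝ) (C : ℝ)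
    (hB : Bdd ρ β C) (hd : Rel w β) : Summable (fun j : ℕ => (4 : ℝ) ^ j * |w (j + 1)| ^ ρ) := by
  have hC := hB.nonneg
  have hE := summable_er ρ C hC
  have key : ∀ I : ℕ, ∑ j ∈ Finset.range I,
      ((4 : ℝ) ^ j * (|w (j + 1)| ^ ρ / 3 ^ ρ) - 4 ^ j * er ρ C j) ≤ 4 * C := by
    intro I
    obtain ⟨R, hR⟩ : ∃ R : ℕ, R = 8 * 4 ^ I + 1 := ⟨_, rfl⟩
    set S := ∑ j ∈ Finset.range I,
      ((4 : ℝ) ^ j * (|w (j + 1)| ^ ρ / 3 ^ ρ) - 4 ^ j * er ρ C j) with hS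
    have h1 : ∑ k ∈ Finset.range R, ∑ t ∈ Finset.range R, S ≤
        ∑ k ∈ Finset.range R, ∑ t ∈ Finset.range R, ∑ s ∈ Finset.range R,
        Q ρ β k s (R + t - s - 1) := by
      refine Finset.sum_le_sum fun k _ => Finset.sum_le_sum fun t _ => ?_
      refine (many w ρ hρ β C hB hd k (R + t) I (by omega)).trans ?_
      apply Finset.sum_le_sum_of_subset_of_nonneg
      · intro x hx
        rw [Finset.mem_range] at hx ⊢
        omega
      · intro x _ _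
        exact Q_nonneg ρ hρ _ _ _ _
    have h2 := h1.trans (box ρ hρ β C hB R)
    rw [Finset.sum_const, Finset.sum_const, Finset.card_range, nsmul_eq_mul, nsmul_eq_mul] at h2
    have h3 : (0 : ℝ) < R := by
      have : 0 < R := by omega
      exact_mod_cast this
    have h4 : (0 : ℝ) < (R : ℝ) ^ 2 := by positivity
    by_contra h5
    rw [not_le] at h5
    nlinarith
  have h6 : Summable (fun j : ℕ => (4 : ℝ) ^ j * (|w (j + 1)| ^ ρ / 3 ^ ρ)) := by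
    refine summable_of_sum_range_le (c := 4 * C + ∑' j : ℕ, (4 : ℝ) ^ j * er ρ C j)
      (fun j => by positivity) (fun I => ?_)
    have h7 := key I
    rw [Finset.sum_sub_distrib] at h7
    have h8 := hE.sum_le_tsum (Finset.range I) (fun j _ => by unfold er; positivity)
    linarith
  have h9 := h6.mul_left (3 ^ ρ)
  refine h9.congr (fun j => ?_)
  have h10 : (0 : ℝ) < 3 ^ ρ := by positivity
  field_simp

end Pool.Agent.Helper10.HB
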