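import Pool.Agent.Helper10.HB.Contra

set_option autoImplicit false
set_option linter.unusedSimpArgs false
set_option linter.unusedSectionVars false

namespace Pool.Agent.Helper10.HB

variable {α : Type*} [TwoLetters α] [DecidableEq α] (w : ℕ → ℝ)

/-- the cocycle -/
noncomputable def ff (a b c x : F α) : ℝ :=
  cw w (x⁻¹).toWord (x⁻¹ * a).toWord (x⁻¹ * (a * b)).toWord (x⁻¹ * (a * b * c)).toWord

lemma sum_Kw_le' (p M : ℝ) (hp : 1 ≤ p) (hw : Wb w p M) (g h1 h2 h3 : F α) (s : Finset (F α)) :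
    ∑ x ∈ s, Kw w p (x⁻¹ * g).toWord (x⁻¹ * h1).toWord (x⁻¹ * h2).toWord (x⁻¹ * h3).toWord ≤
      KK p M := by
  classical
  have h := sum_Kw_le w p M hp hw (g⁻¹ * h1) (g⁻¹ * h2) (g⁻¹ * h3) (s.image (fun x => g⁻¹ * x))
  rw [Finset.sum_image] at h
  · refine le_trans (le_of_eq ?_) h
    apply Finset.sum_congr rfl
    intro x _
    simp only [mul_inv_rev, inv_inv, mul_assoc, mul_inv_cancel_left]
  · intro x _ y _ hxy
    exact mul_left_cancel hxy

lemma sum_ff_le (p M : ℝ) (hp : 1 ≤ p) (hw : Wb w p M) (a b c : F α) (s : Finset (F α)) :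
    ∑ x ∈ s, |ff w a b c x| ^ p ≤ 4 * KK p M := by
  have h0 := sum_Kw_le' w p M hp hw 1 a (a * b) (a * b * c) s
  have h1 := sum_Kw_le' w p M hp hw a 1 (a * b) (a * b * c) s
  have h2 := sum_Kw_le' w p M hp hw (a * b) 1 a (a * b * c) s
  have h3 := sum_Kw_le' w p M hp hw (a * b * c) 1 a (a * b) s
  have h : ∑ x ∈ s, |ff w a b c x| ^ p ≤ ∑ x ∈ s,
      (Kw w p (x⁻¹ * 1).toWord (x⁻¹ * a).toWord (x⁻¹ * (a * b)).toWord
        (x⁻¹ * (a * b * c)).toWord +
      Kw w p (x⁻¹ * a).toWord (x⁻¹ * 1).toWord (x⁻¹ * (a * b)).toWord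
        (x⁻¹ * (a * b * c)).toWord +
      Kw w p (x⁻¹ * (a * b)).toWord (x⁻¹ * 1).toWord (x⁻¹ * a).toWord
        (x⁻¹ * (a * b * c)).toWord +
      Kw w p (x⁻¹ * (a * b * c)).toWord (x⁻¹ * 1).toWord (x⁻¹ * a).toWord
        (x⁻¹ * (a * b)).toWord) := by
    apply Finset.sum_le_sum
    intro x _
    unfold ff
    rw [mul_one]
    exact cw_pow_le w p hp _ _ _ _
  rw [Finset.sum_add_distrib, Finset.sum_add_distrib, Finset.sum_add_distrib] at h
  linarith

lemma summable_ff (p M : ℝ) (hp : 1 ≤ p) (hw : Wb w p M) (a b c : F α) :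
    Summable (fun x => |ff w a b c x| ^ p) :=
  summable_of_sum_le (fun _ => by positivity) (sum_ff_le w p M hp hw a b c)

lemma tsum_ff_le (p M : ℝ) (hp : 1 ≤ p) (hw : Wb w p M) (a b c : F α) :
    ∑' x, |ff w a b c x| ^ p ≤ 4 * KK p M :=
  (summable_ff w p M hp hw a b c).tsum_le_of_sum_le (sum_ff_le w p M hp hw a b c)

lemma ff_cocycle (g₁ g₂ g₃ g₄ x : F α) :
    ff w g₂ g₃ g₄ (g₁⁻¹ * x) - ff w (g₁ * g₂) g₃ g₄ x + ff w g₁ (g₂ * g₃) g₄ x
          - ff w g₁ g₂ (g₃ * g₄) x + ff w g₁ g₂ g₃ x = 0 := by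
  unfold ff
  simp only [mul_inv_rev, inv_inv, mul_assoc]
  unfold cw
  ring

/-! ### the primitive when the weights are summable -/

open Classical in
lemma A_pow_le' (p : ℝ) (hp : 1 ≤ p) (N : ℕ) (x y z : Wd α) :
    |A w N x y z| ^ p ≤
      ∑ J ∈ Finset.range N, (if Cnd J x y z then 2 ^ p * |w J| ^ p else 0) := by
  have hnn : ∀ J ∈ Finset.range N,
      (0:ℝ) ≤ (if Cnd J x y z then 2 ^ p * |w J| ^ p else 0) := by
    intro J _
    split_ifs <;> positivity
  by_cases hex : ∃ J ∈ Finset.range N, Cnd J x y z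
  · obtain ⟨J, hJ, hc⟩ := hex
    have h1 : A w N x y z = AJ w J x y z := by
      unfold A
      rw [Finset.sum_eq_single J]
      · intro K _ hK
        exact AJ_eq_zero w K x y z fun h => hK (Cnd_unique K J x y z h hc)
      · intro h; exact absurd hJ h
    rw [h1]
    calc |AJ w J x y z| ^ p ≤ 2 ^ p * |w J| ^ p := by
          unfold AJ
          split_ifs
          · exact wu_pow_le w p hp J _ x y
          · rw [abs_zero, Real.zero_rpow (by linarith)]
            positivity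
      _ = (if Cnd J x y z then 2 ^ p * |w J| ^ p else 0) := by rw [if_pos hc]
      _ ≤ _ := Finset.single_le_sum hnn hJ
  · have h1 : A w N x y z = 0 := by
      unfold A
      apply Finset.sum_eq_zero
      intro J hJ
      exact AJ_eq_zero w J x y z fun h => hex ⟨J, hJ, h⟩
    rw [h1, abs_zero, Real.zero_rpow (by linarith)]
    exact Finset.sum_nonneg hnn

lemma H_eq_A (N : ℕ) (l m : Wd α) (h : lcp l m ≤ N) : H w l m = A w N l m [] := by
  rw [H_eq w N l m h]
  unfold A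
  refine Finset.sum_congr rfl fun J _ => ?_
  unfold HJ AJ
  have h1 : ¬ (4 ^ J ≤ lcp l ([] : Wd α)) := by
    rw [lcp_nil_right]
    have : 0 < 4 ^ J := by positivity
    omega
  by_cases h2 : 4 ^ J ≤ lcp l m
  · rw [if_pos h2, if_pos ⟨h2, h1⟩]
  · rw [if_neg h2, if_neg (fun h3 => h2 h3.1)]

/-- the summability bound for the weights -/
def Ws (p S : ℝ) : Prop := ∀ N : ℕ, ∑ J ∈ Finset.range N, (4 : ℝ) ^ J * |w J| ^ p ≤ S

open Classical in
lemma sum_H_pow_le (p S : ℝ) (hp : 1 ≤ p) (hw : Ws w p S) (P : ℕ) (l m : Wd α)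
    (h1 : P ≤ lcp l m) :
    ∑ k ∈ Finset.range P, |H w (l.drop k) (m.drop k)| ^ p ≤ 2 * 2 ^ p * S := by
  set N := lcp l m with hN
  have hD : ∀ k ∈ Finset.range P, |H w (l.drop k) (m.drop k)| ^ p ≤
      ∑ J ∈ Finset.range N, (if Cnd J (l.drop k) (m.drop k) [] then 2 ^ p * |w J| ^ p else 0) := by
    intro k hk
    rw [Finset.mem_range] at hk
    rw [H_eq_A w N (l.drop k) (m.drop k) (by rw [lcp_drop k l m (by omega)]; omega)]
    exact A_pow_le' w p hp N _ _ _
  refine (Finset.sum_le_sum hD).trans ?_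
  rw [Finset.sum_comm]
  have h2 : ∀ J ∈ Finset.range N, ∑ k ∈ Finset.range P,
      (if Cnd J (l.drop k) (m.drop k) [] then 2 ^ p * |w J| ^ p else 0) ≤
      2 * 2 ^ p * ((4 : ℝ) ^ J * |w J| ^ p) := by
    intro J _
    rw [← Finset.sum_filter, Finset.sum_const, nsmul_eq_mul]
    have hpos : 0 < 4 ^ J := by positivity
    have hsub : (Finset.range P).filter (fun k => Cnd J (l.drop k) (m.drop k) []) ⊆
        Finset.Ico (N - 2 * 4 ^ J) (N + 1 - 4 ^ J) := by
      intro k hk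
      rw [Finset.mem_filter, Finset.mem_range] at hk
      obtain ⟨hk1, hk2, hk3, hk4⟩ := hk
      rw [lcp_drop k l m (by omega)] at hk2 hk4
      rw [Finset.mem_Ico]
      omega
    have hcard := Finset.card_le_card hsub
    rw [Nat.card_Ico] at hcard
    have hcard2 : ((Finset.range P).filter
        (fun k => Cnd J (l.drop k) (m.drop k) [])).card ≤ 2 * 4 ^ J := by
      omega
    have hcard3 : (((Finset.range P).filter
        (fun k => Cnd J (l.drop k) (m.drop k) [])).card : ℝ) ≤ 2 * 4 ^ J := by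
      exact_mod_cast hcard2
    calc _ ≤ (2 * 4 ^ J : ℝ) * (2 ^ p * |w J| ^ p) :=
          mul_le_mul_of_nonneg_right hcard3 (by positivity)
      _ = _ := by ring
  refine (Finset.sum_le_sum h2).trans ?_
  rw [← Finset.mul_sum]
  exact mul_le_mul_of_nonneg_left (hw N) (by positivity)

/-- contribution of a leg to the primitive -/
noncomputable def K2 (p : ℝ) (l l1 l2 : Wd α) : ℝ :=
  if 1 ≤ lcp l1 l2 ∧ lcp l l1 = 0 then |H w l1 l2| ^ p else 0

lemma K2_nonneg (p : ℝ) (l l1 l2 : Wd α) : 0 ≤ K2 w p l l1 l2 := by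
  unfold K2; split_ifs <;> positivity

lemma bw_pow_le (p : ℝ) (hp : 1 ≤ p) (l m r : Wd α) :
    |bw w l m r| ^ p ≤ K2 w p l m r + K2 w p m l r + K2 w p r l m := by
  have n0 := K2_nonneg w p l m r
  have n1 := K2_nonneg w p m l r
  have n2 := K2_nonneg w p r l m
  have t1 := lcp_trans 1 l m r
  have t2 := lcp_trans 1 m r l
  have t3 := lcp_trans 1 r l m
  rw [lcp_comm r l, lcp_comm m l] at t2
  rw [lcp_comm r l, lcp_comm r m] at t3
  unfold bw
  split_ifs with hS
  · rw [abs_zero, Real.zero_rpow (by linarith)]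
    linarith
  · unfold S3 at hS
    unfold D
    by_cases c1 : 1 ≤ lcp m r
    · have c2 : lcp l m = 0 := by
        by_contra h
        exact hS ⟨by omega, c1, t1 (by omega) c1⟩
      have c3 : lcp l r = 0 := by
        by_contra h
        have := t2 c1 (by omega)
        omega
      have e : K2 w p l m r = |H w m r| ^ p := by unfold K2; rw [if_pos ⟨c1, c2⟩]
      rw [H_eq_zero w _ _ c2, H_eq_zero w _ _ c3, sub_zero, add_zero, ← e]
      linarith
    · by_cases c2 : 1 ≤ lcp l r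
      · have c3 : lcp l m = 0 := by
          by_contra h
          have := t3 c2 (by omega)
          omega
        have e : K2 w p m l r = |H w l r| ^ p := by
          unfold K2; rw [if_pos ⟨c2, by rw [lcp_comm]; exact c3⟩]
        rw [H_eq_zero w m r (by omega), H_eq_zero w _ _ c3, zero_sub, add_zero, abs_neg, ← e]
        linarith
      · by_cases c3 : 1 ≤ lcp l m
        · have e : K2 w p r l m = |H w l m| ^ p := by
            unfold K2; rw [if_pos ⟨c3, by rw [lcp_comm]; omega⟩]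
          rw [H_eq_zero w m r (by omega), H_eq_zero w l r (by omega), sub_zero, zero_add, ← e]
          linarith
        · rw [H_eq_zero w m r (by omega), H_eq_zero w l r (by omega),
            H_eq_zero w l m (by omega), sub_zero, add_zero, abs_zero,
            Real.zero_rpow (by linarith)]
          linarith

/-- the sum over the group of the contributions of a leg to the primitive -/
lemma sum_K2_le (p S : ℝ) (hp : 1 ≤ p) (hw : Ws w p S) (h1 h2 : F α) (s : Finset (F α)) :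
    ∑ y ∈ s, K2 w p (y⁻¹).toWord (y⁻¹ * h1).toWord (y⁻¹ * h2).toWord ≤ 2 * 2 ^ p * S := by
  set P := lcp h1.toWord h2.toWord with hP
  have hsupp : ∀ y : F α,
      K2 w p (y⁻¹).toWord (y⁻¹ * h1).toWord (y⁻¹ * h2).toWord ≠ 0 →
      ∃ k < P, y = FreeGroup.mk (h1.toWord.take k) ∧ k = y.toWord.length ∧
        K2 w p (y⁻¹).toWord (y⁻¹ * h1).toWord (y⁻¹ * h2).toWord =
          |H w (h1.toWord.drop k) (h2.toWord.drop k)| ^ p := by
    intro y hy
    unfold K2 at hy ⊢
    split_ifs at hy with hc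
    · obtain ⟨c12, c0⟩ := hc
      have c02 : lcp (y⁻¹).toWord (y⁻¹ * h2).toWord = 0 := by
        by_contra hne
        have := lcp_trans 1 (y⁻¹).toWord (y⁻¹ * h2).toWord (y⁻¹ * h1).toWord (by omega)
          (by rw [lcp_comm]; exact c12)
        omega
      have w1 := toWord_inv_mul _ _ c0
      have w2 := toWord_inv_mul _ _ c02
      rw [inv_inv, mul_inv_cancel_left] at w1 w2
      have l12 : lcp h1.toWord h2.toWord =
          y.toWord.length + lcp (y⁻¹ * h1).toWord (y⁻¹ * h2).toWord := by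
        rw [w1, w2, lcp_append]
      refine ⟨y.toWord.length, ?_, ?_, rfl, ?_⟩
      · rw [hP]
        omega
      · rw [w1, List.take_left' rfl, FreeGroup.mk_toWord]
      · rw [if_pos ⟨c12, c0⟩]
        congr 2
        conv_rhs => rw [w1, w2]
        rw [List.drop_left' rfl, List.drop_left' rfl]
    · exact absurd rfl hy
  classical
  have hfilt : ∑ y ∈ s,
      K2 w p (y⁻¹).toWord (y⁻¹ * h1).toWord (y⁻¹ * h2).toWord =
      ∑ y ∈ s.filter (fun y => K2 w p (y⁻¹).toWord (y⁻¹ * h1).toWord (y⁻¹ * h2).toWord ≠ 0),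
        |H w (h1.toWord.drop y.toWord.length) (h2.toWord.drop y.toWord.length)| ^ p := by
    rw [← Finset.sum_filter_ne_zero]
    apply Finset.sum_congr rfl
    intro y hy
    rw [Finset.mem_filter] at hy
    obtain ⟨k, _, _, hk, he⟩ := hsupp y hy.2
    rw [he, hk]
  rw [hfilt]
  have himg : ∑ y ∈ s.filter (fun y => K2 w p (y⁻¹).toWord (y⁻¹ * h1).toWord
        (y⁻¹ * h2).toWord ≠ 0),
        |H w (h1.toWord.drop y.toWord.length) (h2.toWord.drop y.toWord.length)| ^ p ≤
      ∑ k ∈ Finset.range P, |H w (h1.toWord.drop k) (h2.toWord.drop k)| ^ p := by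
    have hinj : Set.InjOn (fun y : F α => y.toWord.length)
        (s.filter (fun y => K2 w p (y⁻¹).toWord (y⁻¹ * h1).toWord
          (y⁻¹ * h2).toWord ≠ 0) : Finset (F α)) := by
      intro y hy z hz hyz
      rw [Finset.mem_coe, Finset.mem_filter] at hy hz
      obtain ⟨k, _, hk1, hk2, _⟩ := hsupp y hy.2
      obtain ⟨j, _, hj1, hj2, _⟩ := hsupp z hz.2
      simp only at hyz
      rw [hk1, hj1, hk2, hj2, hyz]
    rw [← Finset.sum_image (f := fun k => |H w (h1.toWord.drop k) (h2.toWord.drop k)| ^ p) hinj]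
    apply Finset.sum_le_sum_of_subset_of_nonneg
    · intro k hk
      rw [Finset.mem_image] at hk
      obtain ⟨y, hy, rfl⟩ := hk
      rw [Finset.mem_filter] at hy
      obtain ⟨k, hk0, hk1, hk2, _⟩ := hsupp y hy.2
      rw [Finset.mem_range, ← hk2]
      exact hk0
    · intro k _ _
      positivity
  exact himg.trans (sum_H_pow_le w p S hp hw P _ _ le_rfl)

lemma sum_K2_le' (p S : ℝ) (hp : 1 ≤ p) (hw : Ws w p S) (g h1 h2 : F α) (s : Finset (F α)) :
    ∑ x ∈ s, K2 w p (x⁻¹ * g).toWord (x⁻¹ * h1).toWord (x⁻¹ * h2).toWord ≤ 2 * 2 ^ p * S := by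
  classical
  have h := sum_K2_le w p S hp hw (g⁻¹ * h1) (g⁻¹ * h2) (s.image (fun x => g⁻¹ * x))
  rw [Finset.sum_image] at h
  · refine le_trans (le_of_eq ?_) h
    apply Finset.sum_congr rfl
    intro x _
    simp only [mul_inv_rev, inv_inv, mul_assoc, mul_inv_cancel_left]
  · intro x _ y _ hxy
    exact mul_left_cancel hxy

/-- the primitive -/
noncomputable def hh (a b x : F α) : ℝ :=
  bw w (x⁻¹).toWord (x⁻¹ * a).toWord (x⁻¹ * (a * b)).toWord

lemma sum_hh_le (p S : ℝ) (hp : 1 ≤ p) (hw : Ws w p S) (a b : F α) (s : Finset (F α)) :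
    ∑ x ∈ s, |hh w a b x| ^ p ≤ 3 * (2 * 2 ^ p * S) := by
  have h0 := sum_K2_le' w p S hp hw 1 a (a * b) s
  have h1 := sum_K2_le' w p S hp hw a 1 (a * b) s
  have h2 := sum_K2_le' w p S hp hw (a * b) 1 a s
  have h : ∑ x ∈ s, |hh w a b x| ^ p ≤ ∑ x ∈ s,
      (K2 w p (x⁻¹ * 1).toWord (x⁻¹ * a).toWord (x⁻¹ * (a * b)).toWord +
      K2 w p (x⁻¹ * a).toWord (x⁻¹ * 1).toWord (x⁻¹ * (a * b)).toWord +
      K2 w p (x⁻¹ * (a * b)).toWord (x⁻¹ * 1).toWord (x⁻¹ * a).toWord) := by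
    apply Finset.sum_le_sum
    intro x _
    unfold hh
    rw [mul_one]
    exact bw_pow_le w p hp _ _ _
  rw [Finset.sum_add_distrib, Finset.sum_add_distrib] at h
  linarith

lemma summable_hh (p S : ℝ) (hp : 1 ≤ p) (hw : Ws w p S) (a b : F α) :
    Summable (fun x => |hh w a b x| ^ p) :=
  summable_of_sum_le (fun _ => by positivity) (sum_hh_le w p S hp hw a b)

lemma tsum_hh_le (p S : ℝ) (hp : 1 ≤ p) (hw : Ws w p S) (a b : F α) :
    ∑' x, |hh w a b x| ^ p ≤ 3 * (2 * 2 ^ p * S) :=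
  (summable_hh w p S hp hw a b).tsum_le_of_sum_le (sum_hh_le w p S hp hw a b)

lemma ff_eq (g₁ g₂ g₃ x : F α) :
    ff w g₁ g₂ g₃ x =
      hh w g₂ g₃ (g₁⁻¹ * x) - hh w (g₁ * g₂) g₃ x + hh w g₁ (g₂ * g₃) x - hh w g₁ g₂ x := by
  unfold ff hh cw
  simp only [mul_inv_rev, inv_inv, mul_assoc]

/-! ### linearity in the weights -/

lemma H_add (w w' : ℕ → ℝ) (l m : Wd α) : H (w + w') l m = H w l m + H w' l m := by
  unfold H
  rw [← Finset.sum_add_distrib]
  refine Finset.sum_congr rfl fun J _ => ?_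
  unfold HJ
  split_ifs
  · rw [Pi.add_apply]; ring
  · ring

lemma H_smul (c : ℝ) (w : ℕ → ℝ) (l m : Wd α) : H (c • w) l m = c * H w l m := by
  unfold H
  rw [Finset.mul_sum]
  refine Finset.sum_congr rfl fun J _ => ?_
  unfold HJ
  split_ifs
  · rw [Pi.smul_apply, smul_eq_mul]; ring
  · ring

lemma bw_add (w w' : ℕ → ℝ) (l m r : Wd α) : bw (w + w') l m r = bw w l m r + bw w' l m r := by
  unfold bw D
  split_ifs
  · ring
  · rw [H_add, H_add, H_add]; ring

lemma bw_smul (c : ℝ) (w : ℕ → ℝ) (l m r : Wd α) : bw (c • w) l m r = c * bw w l m r := by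
  unfold bw D
  split_ifs
  · ring
  · rw [H_smul, H_smul, H_smul]; ring

lemma ff_add (w w' : ℕ → ℝ) (a b c x : F α) :
    ff (w + w') a b c x = ff w a b c x + ff w' a b c x := by
  unfold ff cw
  simp only [bw_add]; ring

lemma ff_smul (k : ℝ) (w : ℕ → ℝ) (a b c x : F α) :
    ff (k • w) a b c x = k * ff w a b c x := by
  unfold ff cw
  simp only [bw_smul]; ring

/-- a bounded primitive gives summable weights -/
lemma weights_of_primitive (p : ℝ) (hp : 1 ≤ p) (h : F α → F α → F α → ℝ) (C : ℝ)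
    (hs : ∀ a b, Summable (fun x => |h a b x| ^ p)) (hC : ∀ a b, ∑' x, |h a b x| ^ p ≤ C)
    (hr : ∀ g₁ g₂ g₃ x : F α, ff w g₁ g₂ g₃ x =
      h g₂ g₃ (g₁⁻¹ * x) - h (g₁ * g₂) g₃ x + h g₁ (g₂ * g₃) x - h g₁ g₂ x) :
    Summable (fun j : ℕ => (4 : ℝ) ^ j * |w (j + 1)| ^ p) := by
  refine weights_summable w p hp
    (fun w0 w1 w2 => h (w0⁻¹ * w1) (w1⁻¹ * w2) w0⁻¹) C ?_ ?_
  · intro g0 g1 g2 s
    classical
    have h1 := (hs (g0⁻¹ * g1) (g1⁻¹ * g2)).sum_le_tsum (s.image (fun x => g0⁻¹ * x))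
      (fun _ _ => by positivity)
    rw [Finset.sum_image] at h1
    · refine le_trans (le_of_eq ?_) (h1.trans (hC _ _))
      apply Finset.sum_congr rfl
      intro x _
      simp only [mul_inv_rev, inv_inv, mul_assoc, mul_inv_cancel_left]
    · intro x _ y _ hxy
      exact mul_left_cancel hxy
  · intro w0 w1 w2 w3
    have h1 := hr (w0⁻¹ * w1) (w1⁻¹ * w2) (w2⁻¹ * w3) w0⁻¹
    unfold ff at h1
    simp only [mul_inv_rev, inv_inv, mul_assoc, mul_inv_cancel_left, mul_inv_cancel, mul_one] at h1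
    exact h1.symm

end Pool.Agent.Helper10.HB
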