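import Pool.Agent.Helper10.HB.Main

set_option autoImplicit false
set_option linter.unusedSimpArgs false
set_option linter.unusedSectionVars false

namespace Pool.Agent.Helper10.HB

variable {α : Type*} [TwoLetters α] [DecidableEq α] (w : ℕ → ℝ)

/-- the relation with the cocycle -/
def Rel (β : F α → F α → F α → ℝ) : Prop :=
  ∀ w0 w1 w2 w3 : F α, β w1 w2 w3 - β w0 w2 w3 + β w0 w1 w3 - β w0 w1 w2 =
    cw w w0.toWord w1.toWord w2.toWord w3.toWord

lemma bw_nil (m r : Wd α) : bw w [] m r = H w m r := by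
  unfold bw
  rw [if_neg (by unfold S3; simp)]
  unfold D
  rw [H_eq_zero w [] r (by simp), H_eq_zero w [] m (by simp)]
  ring

lemma rel_A (β : F α → F α → F α → ℝ) (hd : Rel w β) (q w1 w2 : List Bool) :
    β (pg α q)⁻¹ (pg α w1) (pg α w2) =
      β 1 (pg α w1) (pg α w2) - β 1 (pg α q)⁻¹ (pg α w2) +
      β 1 (pg α q)⁻¹ (pg α w1) := by
  have h := hd 1 (pg α q)⁻¹ (pg α w1) (pg α w2)
  unfold cw at h
  rw [FreeGroup.toWord_one, bw_nil, bw_nil, bw_nil] at h
  rw [H_eq_zero w _ _ (lcp_neg_pos α q w2), H_eq_zero w _ _ (lcp_neg_pos α q w1)] at h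
  have h2 : bw w ((pg α q)⁻¹).toWord (pg α w1).toWord (pg α w2).toWord =
      H w (pg α w1).toWord (pg α w2).toWord := by
    unfold bw
    rw [if_neg (by unfold S3; rw [lcp_neg_pos]; simp)]
    unfold D
    rw [H_eq_zero w _ _ (lcp_neg_pos α q w2), H_eq_zero w _ _ (lcp_neg_pos α q w1)]
    ring
  rw [h2] at h
  linarith

/-- the function `θ - H` on positive words -/
noncomputable def GG (β : F α → F α → F α → ℝ) (w1 w2 : List Bool) : ℝ :=
  β 1 (pg α w1) (pg α w2) - H w (pw α w1) (pw α w2)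

lemma rel_B (β : F α → F α → F α → ℝ) (hd : Rel w β) (p w1 w2 w3 : List Bool)
    (hp : 1 ≤ p.length) :
    β (pg α (p ++ w1)) (pg α (p ++ w2)) (pg α (p ++ w3)) =
        GG w β (p ++ w2) (p ++ w3) - GG w β (p ++ w1) (p ++ w3) + GG w β (p ++ w1) (p ++ w2) := by
  have h := hd 1 (pg α (p ++ w1)) (pg α (p ++ w2)) (pg α (p ++ w3))
  unfold cw at h
  rw [FreeGroup.toWord_one, bw_nil, bw_nil, bw_nil] at h
  have h2 : bw w (pg α (p ++ w1)).toWord (pg α (p ++ w2)).toWord (pg α (p ++ w3)).toWord = 0 := by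
    unfold bw
    rw [if_pos]
    unfold S3
    rw [toWord_pg, toWord_pg, toWord_pg, pw_append, pw_append, pw_append, lcp_append, lcp_append,
      lcp_append, pw_length]
    exact ⟨by omega, by omega, by omega⟩
  rw [h2, toWord_pg, toWord_pg, toWord_pg] at h
  unfold GG
  linarith

/-- the averaged quantity -/
noncomputable def XX (β : F α → F α → F α → ℝ) (k s m L : ℕ) : ℝ :=
  Av k fun q => T s m fun w1 w2 => β (pg α q)⁻¹ (pg α w1) (pg α w2) * v α L w1

/-- the averaged power -/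
noncomputable def Q (ρ : ℝ) (β : F α → F α → F α → ℝ) (k s m : ℕ) : ℝ :=
  Av k fun q => T s m fun w1 w2 => |β (pg α q)⁻¹ (pg α w1) (pg α w2)| ^ ρ

/-- the part that does not depend on the branching place -/
noncomputable def nu (β : F α → F α → F α → ℝ) (k M L : ℕ) : ℝ :=
  Av k fun q => Av M fun w => β 1 (pg α q)⁻¹ (pg α w) * v α L w

/-- the first part -/
noncomputable def gg (β : F α → F α → F α → ℝ) (s m L : ℕ) : ℝ :=
  T s m (fun w1 w2 => GG w β w1 w2 * v α L w1)

lemma XX_pow_le (ρ : ℝ) (hρ : 1 ≤ ρ) (β : F α → F α → F α → ℝ) (k s m L : ℕ) :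
    |XX β k s m L| ^ ρ ≤ Q ρ β k s m := by
  unfold XX Q
  refine (Av_pow_le ρ hρ _ _).trans (Av_mono _ _ _ fun q _ => (T_pow_le ρ hρ _ _ _).trans
    (T_mono _ _ _ _ fun p l y z _ _ _ => ?_))
  exact mul_v_pow_le α ρ hρ _ _ _

lemma Q_nonneg (ρ : ℝ) (hρ : 1 ≤ ρ) (β : F α → F α → F α → ℝ) (k s m : ℕ) : 0 ≤ Q ρ β k s m :=
  (by positivity : 0 ≤ |XX β k s m 0| ^ ρ).trans (XX_pow_le ρ hρ β k s m 0)

lemma XX_eq (β : F α → F α → F α → ℝ) (hd : Rel w β) (k s m L : ℕ) (h1 : s + 1 ≤ L)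
    (h2 : L < s + 1 + m) :
    XX β k s m L = gg w β s m L + T s m (fun w1 w2 => H w (pw α w1) (pw α w2) * v α L w1) +
      nu β k (s + (m + 1)) L := by
  have e : ∀ q : List Bool, (T s m fun w1 w2 => β (pg α q)⁻¹ (pg α w1) (pg α w2) * v α L w1) =
      gg w β s m L + T s m (fun w1 w2 => H w (pw α w1) (pw α w2) * v α L w1) +
        Av (s + (m + 1)) (fun w => β 1 (pg α q)⁻¹ (pg α w) * v α L w) := by
    intro q
    have e1 : (T s m fun w1 w2 => β (pg α q)⁻¹ (pg α w1) (pg α w2) * v α L w1) =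
        T s m fun w1 w2 => ((GG w β w1 w2 * v α L w1 + H w (pw α w1) (pw α w2) * v α L w1) +
          (fun w => β 1 (pg α q)⁻¹ (pg α w) * v α L w) w1) -
            (fun w => β 1 (pg α q)⁻¹ (pg α w)) w2 * v α L w1 := by
      apply T_congr
      intro p l y z _ _ _
      rw [rel_A w β hd]
      unfold GG
      ring
    rw [e1, T_sub, T_right_mul_v α s m _ _ h1 h2, T_add, T_add, T_left]
    unfold gg
    ring
  unfold XX nu
  simp only [e, Av_add, Av_const]

lemma Q_eq (ρ : ℝ) (β : F α → F α → F α → ℝ) (k s m : ℕ) :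
    Q ρ β k s m = Av (k + s) fun W => A2 fun l => Av m fun y => Av m fun z =>
      |β (pg α (W.take k))⁻¹ (pg α (W.drop k ++ l :: y)) (pg α (W.drop k ++ (!l) :: z))| ^ ρ := by
  rw [Av_append]
  unfold Q T
  refine Av_congr _ _ _ fun q hq => Av_congr _ _ _ fun p _ => ?_
  rw [List.take_left' hq, List.drop_left' hq]

lemma sum_A2 (S : Finset ℕ) (f : ℕ → Bool → ℝ) :
    ∑ i ∈ S, A2 (f i) = A2 (fun b => ∑ i ∈ S, f i b) := by
  unfold A2
  rw [← Finset.sum_div, Finset.sum_add_distrib]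

/-- the sum of the powers along a diagonal -/
lemma sum_Q_le (ρ : ℝ) (β : F α → F α → F α → ℝ) (C : ℝ) (hB : Bdd ρ β C) (N m : ℕ) :
    ∑ k ∈ Finset.range (N + 1), Q ρ β k (N - k) m ≤ C := by
  have e : ∑ k ∈ Finset.range (N + 1), Q ρ β k (N - k) m =
      ∑ k ∈ Finset.range (N + 1), Av N fun W => A2 fun l => Av m fun y => Av m fun z =>
      |β (pg α (W.take k))⁻¹ (pg α (W.drop k ++ l :: y))
        (pg α (W.drop k ++ (!l) :: z))| ^ ρ := by
    apply Finset.sum_congr rfl
    intro k hk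
    rw [Finset.mem_range] at hk
    rw [Q_eq, show k + (N - k) = N by omega]
  rw [e, ← Av_sum]
  rw [show C = Av N (fun _ => C) from (Av_const _ _).symm]
  refine Av_mono _ _ _ fun W hW => ?_
  rw [sum_A2]
  rw [show C = A2 (fun _ => C) from (A2_const _).symm]
  refine A2_mono _ _ fun l => ?_
  rw [← Av_sum]
  rw [show C = Av m (fun _ => C) from (Av_const _ _).symm]
  refine Av_mono _ _ _ fun y _ => ?_
  rw [← Av_sum]
  rw [show C = Av m (fun _ => C) from (Av_const _ _).symm]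
  refine Av_mono _ _ _ fun z _ => ?_
  classical
  have h := hB 1 (pg α (W ++ l :: y)) (pg α (W ++ (!l) :: z))
    ((Finset.range (N + 1)).image (fun k => pg α (W.take k)))
  rw [Finset.sum_image] at h
  · refine le_trans (le_of_eq ?_) h
    apply Finset.sum_congr rfl
    intro k _
    have e2 : ∀ r : List Bool, (pg α (W.take k))⁻¹ * pg α (W ++ r) = pg α (W.drop k ++ r) := by
      intro r
      conv_lhs => rw [← List.take_append_drop k W, List.append_assoc, pg_append]
      rw [List.take_append_drop, inv_mul_cancel_left]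
    rw [e2, e2, mul_one]
  · intro i hi j hj hij
    have h3 := congrArg List.length (pg_injective α hij)
    rw [Finset.mem_coe, Finset.mem_range] at hi hj
    rw [List.length_take, List.length_take] at h3
    omega

end Pool.Agent.Helper10.HB
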