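import Pool.Agent.Helper10.HB.Br

set_option autoImplicit false
set_option linter.unusedSimpArgs false
set_option linter.unusedSectionVars false

namespace Pool.Agent.Helper10.HB

variable {α : Type*} [TwoLetters α] [DecidableEq α]

/-- the boundedness condition -/
def Bdd (ρ : ℝ) (β : F α → F α → F α → ℝ) (C : ℝ) : Prop :=
  ∀ (g0 g1 g2 : F α) (s : Finset (F α)), ∑ x ∈ s, |β (x⁻¹ * g0) (x⁻¹ * g1) (x⁻¹ * g2)| ^ ρ ≤ C

lemma Av_beta_le (ρ : ℝ) (β : F α → F α → F α → ℝ) (C : ℝ) (hB : Bdd ρ β C) (s : ℕ)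
    (a b c : List Bool) :
    Av s (fun p => |β (pg α (p ++ a)) (pg α (p ++ b)) (pg α (p ++ c))| ^ ρ) ≤ C / 2 ^ s := by
  classical
  have h1 := hB (pg α a) (pg α b) (pg α c) ((wds s).image (fun p => (pg α p)⁻¹))
  rw [Finset.sum_image] at h1
  · simp only [inv_inv, ← pg_append] at h1
    rw [sum_wds] at h1
    rw [le_div_iff₀ (by positivity)]
    linarith
  · intro x _ y _ h
    exact pg_injective α (inv_injective h)

/-- the difference estimate -/
lemma G_diff (ρ : ℝ) (hρ : 1 ≤ ρ) (β : F α → F α → F α → ℝ) (C : ℝ) (hB : Bdd ρ β C)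
    (G : List Bool → List Bool → ℝ)
    (hG : ∀ p w1 w2 w3 : List Bool, 1 ≤ p.length →
      β (pg α (p ++ w1)) (pg α (p ++ w2)) (pg α (p ++ w3)) =
        G (p ++ w2) (p ++ w3) - G (p ++ w1) (p ++ w3) + G (p ++ w1) (p ++ w2))
    (s m L : ℕ) (hs : 1 ≤ s) (h1 : s + 2 ≤ L) (h2 : L < s + 2 + m) :
    |T (s + 1) m (fun w1 w2 => G w1 w2 * v α L w1) -
      T s (m + 1) (fun w1 w2 => G w1 w2 * v α L w1)| ^ ρ ≤ C / 2 ^ s := by
  rw [T_diff]
  have e1 : (Av s fun p => A2 fun a => A2 fun l => Av m fun y => Av m fun z => Av (m + 1) fun t =>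
        (G (p ++ a :: l :: y) (p ++ a :: (!l) :: z) * v α L (p ++ a :: l :: y) -
          G (p ++ a :: l :: y) (p ++ (!a) :: t) * v α L (p ++ a :: l :: y))) =
      Av s fun p => A2 fun a => A2 fun l => Av m fun y => Av m fun z => Av (m + 1) fun t =>
        (G (p ++ (!a) :: t) (p ++ a :: (!l) :: z) * v α L (p ++ a :: l :: y) -
          β (pg α (p ++ a :: l :: y)) (pg α (p ++ (!a) :: t)) (pg α (p ++ a :: (!l) :: z)) *
            v α L (p ++ a :: l :: y)) := by
    refine Av_congr _ _ _ fun p hp => A2_congr _ _ fun a => A2_congr _ _ fun l =>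
      Av_congr _ _ _ fun y _ => Av_congr _ _ _ fun z _ => Av_congr _ _ _ fun t _ => ?_
    rw [hG p _ _ _ (by omega)]
    ring
  rw [e1]
  simp only [Av_sub, A2_sub]
  have e2 : (Av s fun p => A2 fun a => A2 fun l => Av m fun y => Av m fun z => Av (m + 1) fun t =>
        G (p ++ (!a) :: t) (p ++ a :: (!l) :: z) * v α L (p ++ a :: l :: y)) = 0 := by
    rw [Av_congr _ _ (fun _ => 0)]
    · exact Av_const _ _
    intro p hp
    rw [A2_congr _ (fun _ => 0)]
    · exact A2_const _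
    intro a
    rw [A2_congr _ (fun _ => 0)]
    · exact A2_const _
    intro l
    simp only [Av_mul_right, Av_mul_left]
    rw [Av_congr m (fun y => v α L (p ++ a :: l :: y)) (v α (L - s - 2))]
    · rw [Av_v _ _ _ (by omega), mul_zero]
    · intro y _
      rw [v_append_right _ _ _ _ (by omega), hp,
        show L - s = (L - s - 2) + 1 + 1 by omega, v_succ_cons, v_succ_cons,
        show (L - s - 2) + 1 + 1 - 2 = L - s - 2 by omega]
  rw [e2, zero_sub, abs_neg]
  refine (Av_pow_le ρ hρ _ _).trans ?_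
  refine (Av_mono _ _ _ fun p _ => (A2_pow_le ρ hρ _).trans (A2_mono _ _ fun a =>
    (A2_pow_le ρ hρ _).trans (A2_mono _ _ fun l => (Av_pow_le ρ hρ _ _).trans
      (Av_mono _ _ _ fun y _ =>
      (Av_pow_le ρ hρ _ _).trans (Av_mono _ _ _ fun z _ => (Av_pow_le ρ hρ _ _).trans
        (Av_mono _ _ (fun t =>
          |β (pg α (p ++ a :: l :: y)) (pg α (p ++ (!a) :: t))
            (pg α (p ++ a :: (!l) :: z))| ^ ρ)
          fun t _ => ?_)))))).trans ?_
  · exact mul_v_pow_le α ρ hρ _ _ _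
  · rw [← A2_Av]
    rw [show C / 2 ^ s = A2 (fun _ => C / 2 ^ s) from (A2_const _).symm]
    refine A2_mono _ _ fun a => ?_
    rw [← A2_Av]
    rw [show C / 2 ^ s = A2 (fun _ => C / 2 ^ s) from (A2_const _).symm]
    refine A2_mono _ _ fun l => ?_
    rw [Av_comm]
    rw [show C / 2 ^ s = Av m (fun _ => C / 2 ^ s) from (Av_const _ _).symm]
    refine Av_mono _ _ _ fun y _ => ?_
    rw [Av_comm]
    rw [show C / 2 ^ s = Av m (fun _ => C / 2 ^ s) from (Av_const _ _).symm]
    refine Av_mono _ _ _ fun z _ => ?_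
    rw [Av_comm]
    rw [show C / 2 ^ s = Av (m + 1) (fun _ => C / 2 ^ s) from (Av_const _ _).symm]
    refine Av_mono _ _ _ fun t _ => ?_
    exact Av_beta_le ρ β C hB s _ _ _

lemma T_sum (s m : ℕ) (S : Finset ℕ) (Φ : ℕ → List Bool → List Bool → ℝ) :
    T s m (fun w1 w2 => ∑ i ∈ S, Φ i w1 w2) = ∑ i ∈ S, T s m (Φ i) := by
  classical
  induction S using Finset.induction_on with
  | empty => simp only [Finset.sum_empty]; unfold T; simp only [Av_const, A2_const]
  | insert a S ha ih => simp only [Finset.sum_insert ha, T_add, ih]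

variable (α)

lemma lcp_branch (p : List Bool) (l : Bool) (y z : List Bool) :
    lcp (pw α (p ++ l :: y)) (pw α (p ++ (!l) :: z)) = p.length := by
  rw [pw_append, pw_append, lcp_append, pw_length]
  have h1 := TwoLetters.ne (α := α)
  have h2 := h1.symm
  have : lcp (pw α (l :: y)) (pw α ((!l) :: z)) = 0 := by
    unfold pw
    rw [List.map_cons, List.map_cons, lcp_cons_cons, if_neg]
    cases l <;> simp [h1, h2]
  rw [this, Nat.add_zero]

variable (w : ℕ → ℝ)

lemma T_HJ_lt (s m J K : ℕ) (h1 : s + 1 ≤ 2 * 4 ^ J) (h2 : 2 * 4 ^ J < s + 1 + m)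
    (h : 2 * 4 ^ K ≤ s) :
    T s m (fun w1 w2 => HJ w K (pw α w1) (pw α w2) * v α (2 * 4 ^ J) w1) = 0 := by
  unfold T
  rw [Av_congr _ _ (fun _ => 0)]
  · exact Av_const _ _
  intro p hp
  rw [A2_congr _ (fun _ => 0)]
  · exact A2_const _
  intro l
  rw [Av_comm]
  rw [Av_congr _ _ (fun _ => 0)]
  · exact Av_const _ _
  intro z _
  have hc : ∀ y : List Bool, HJ w K (pw α (p ++ l :: y)) (pw α (p ++ (!l) :: z)) =
      HJ w K (pw α (p ++ l :: [])) (pw α (p ++ (!l) :: z)) := by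
    intro y
    unfold HJ
    rw [lcp_branch, lcp_branch]
    have e : ∀ w : List Bool, v α (2 * 4 ^ K) (p ++ l :: w) = v α (2 * 4 ^ K) (p ++ [l]) := by
      intro w
      rw [show p ++ l :: w = (p ++ [l]) ++ w by simp, v_append_left]
      simp; omega
    have e2 := e y
    have e3 := e []
    unfold v at e2 e3
    rw [e2]
  simp only [hc]
  rw [Av_mul_left, Av_congr m (fun y => v α (2 * 4 ^ J) (p ++ l :: y)) (v α (2 * 4 ^ J - s - 1))]
  · rw [Av_v _ _ _ (by omega), mul_zero]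
  · intro y _
    rw [v_append_right _ _ _ _ (by omega), hp,
      show 2 * 4 ^ J - s = (2 * 4 ^ J - s - 1) + 1 by omega, v_succ_cons, Nat.add_sub_cancel]

lemma T_HJ_gt (s m J K : ℕ) (h : s < 4 ^ K) :
    T s m (fun w1 w2 => HJ w K (pw α w1) (pw α w2) * v α (2 * 4 ^ J) w1) = 0 := by
  rw [T_congr s m _ (fun _ _ => 0)]
  · unfold T; simp only [Av_const, A2_const]
  · intro p l y z hp _ _
    unfold HJ
    rw [lcp_branch, if_neg (by omega), zero_mul]

lemma T_HJ_eq (s m J : ℕ) (h1 : s + 1 ≤ 2 * 4 ^ J) (h2 : 2 * 4 ^ J < s + 1 + m) :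
    T s m (fun w1 w2 => HJ w J (pw α w1) (pw α w2) * v α (2 * 4 ^ J) w1) =
      if 4 ^ J ≤ s then w J else 0 := by
  split_ifs with h
  · have e : T s m (fun w1 w2 => HJ w J (pw α w1) (pw α w2) * v α (2 * 4 ^ J) w1) =
        T s m (fun w1 w2 => w J -
          (fun w' => w J * v α (2 * 4 ^ J) w') w2 * v α (2 * 4 ^ J) w1) := by
      apply T_congr
      intro p l y z hp hy hz
      unfold HJ
      rw [lcp_branch, if_pos (by omega)]
      have e1 := v_sq α (2 * 4 ^ J) (p ++ l :: y) (by simp; omega)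
      simp only
      unfold v at e1 ⊢
      linear_combination w J * e1
    rw [e, T_sub, T_right_mul_v α s m _ _ h1 h2, sub_zero]
    unfold T; simp only [Av_const, A2_const]
  · rw [T_congr s m _ (fun _ _ => 0)]
    · unfold T; simp only [Av_const, A2_const]
    · intro p l y z hp _ _
      unfold HJ
      rw [lcp_branch, if_neg (by omega), zero_mul]

/-- the value of the average of `H` -/
lemma T_H (s m j : ℕ) (h0 : 2 * 4 ^ j ≤ s) (h1 : s + 1 ≤ 2 * 4 ^ (j + 1))
    (h2 : 2 * 4 ^ (j + 1) < s + 1 + m) :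
    T s m (fun w1 w2 => H w (pw α w1) (pw α w2) * v α (2 * 4 ^ (j + 1)) w1) =
      if 4 ^ (j + 1) ≤ s then w (j + 1) else 0 := by
  have e : T s m (fun w1 w2 => H w (pw α w1) (pw α w2) * v α (2 * 4 ^ (j + 1)) w1) =
      T s m (fun w1 w2 => ∑ K ∈ Finset.range (s + j + 2),
        HJ w K (pw α w1) (pw α w2) * v α (2 * 4 ^ (j + 1)) w1) := by
    apply T_congr
    intro p l y z hp _ _
    rw [H_eq w (s + j + 2) _ _ (by rw [lcp_branch]; omega), Finset.sum_mul]
  rw [e, T_sum, Finset.sum_eq_single (j + 1)]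
  · exact T_HJ_eq α w s m (j + 1) h1 h2
  · intro K _ hK
    rcases Nat.lt_or_gt_of_ne hK with h | h
    · apply T_HJ_lt α w s m (j + 1) K h1 h2
      have : 4 ^ K ≤ 4 ^ j := Nat.pow_le_pow_right (by norm_num) (by omega)
      omega
    · apply T_HJ_gt
      have : 4 ^ (j + 1 + 1) ≤ 4 ^ K := Nat.pow_le_pow_right (by norm_num) h
      have h4 : 4 ^ (j + 1 + 1) = 4 * 4 ^ (j + 1) := by ring
      omega
  · intro h
    exfalso; apply h
    rw [Finset.mem_range]; omega

end Pool.Agent.Helper10.HB
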