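import Mathlib

set_option autoImplicit false
set_option linter.unusedSimpArgs false
set_option linter.unusedSectionVars false

namespace Pool.Agent.Helper10.HB

/-- two distinguished distinct letters of an alphabet -/
class TwoLetters (α : Type*) where
  /-- the first letter -/
  a : α
  /-- the second letter -/
  b : α
  ne : a ≠ b

/-- words in the letters of the free group -/
abbrev Wd (α : Type*) := List (α × Bool)

variable {α : Type*} [DecidableEq α]

/-- length of the longest common beginning of two words -/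
def lcp : Wd α → Wd α → ℕ
  | a :: l, b :: m => if a = b then lcp l m + 1 else 0
  | [], _ => 0
  | _ :: _, [] => 0

@[simp] lemma lcp_nil_left (m : Wd α) : lcp [] m = 0 := by cases m <;> rfl
@[simp] lemma lcp_nil_right (m : Wd α) : lcp m [] = 0 := by cases m <;> rfl
lemma lcp_cons_cons (a b : α × Bool) (l m : Wd α) :
    lcp (a :: l) (b :: m) = if a = b then lcp l m + 1 else 0 := rfl

lemma lcp_comm (l m : Wd α) : lcp l m = lcp m l := by
  induction l generalizing m with
  | nil => simp
  | cons a l ih =>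
    cases m with
    | nil => simp
    | cons b m =>
      rw [lcp_cons_cons, lcp_cons_cons, ih m]
      by_cases h : a = b
      · simp [h]
      · have h' : ¬ b = a := fun e => h e.symm
        simp [h, h']

lemma lcp_trans (n : ℕ) (l m r : Wd α) (h1 : n ≤ lcp l m) (h2 : n ≤ lcp m r) : n ≤ lcp l r := by
  induction n generalizing l m r with
  | zero => exact Nat.zero_le _
  | succ n ih =>
    cases l with
    | nil => simp at h1
    | cons a l =>
      cases m with
      | nil => simp at h1
      | cons b m =>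
        cases r with
        | nil => simp at h2
        | cons c r =>
          rw [lcp_cons_cons] at h1 h2 ⊢
          by_cases hab : a = b
          · by_cases hbc : b = c
            · subst hab; subst hbc
              simp only [if_true] at h1 h2 ⊢
              have := ih l m r (by omega) (by omega)
              omega
            · simp [hbc] at h2
          · simp [hab] at h1

lemma lcp_append (p l m : Wd α) : lcp (p ++ l) (p ++ m) = p.length + lcp l m := by
  induction p with
  | nil => simp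
  | cons a p ih =>
    rw [List.cons_append, List.cons_append, lcp_cons_cons, if_pos rfl, ih, List.length_cons]
    omega

lemma lcp_le_left (l m : Wd α) : lcp l m ≤ l.length := by
  induction l generalizing m with
  | nil => simp
  | cons a l ih =>
    cases m with
    | nil => simp
    | cons b m =>
      rw [lcp_cons_cons]
      split_ifs
      · have := ih m
        rw [List.length_cons]; omega
      · exact Nat.zero_le _

lemma getElem?_eq_of_lt_lcp (j : ℕ) (l m : Wd α) (h : j < lcp l m) : l[j]? = m[j]? := by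
  induction j generalizing l m with
  | zero =>
    cases l with
    | nil => simp at h
    | cons a l =>
      cases m with
      | nil => simp at h
      | cons b m =>
        rw [lcp_cons_cons] at h
        by_cases hab : a = b
        · simp [hab]
        · simp [hab] at h
  | succ j ih =>
    cases l with
    | nil => simp at h
    | cons a l =>
      cases m with
      | nil => simp at h
      | cons b m =>
        rw [lcp_cons_cons] at h
        by_cases hab : a = b
        · rw [if_pos hab] at h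
          simpa using ih l m (by omega)
        · simp [hab] at h

lemma take_eq_of_le_lcp (k : ℕ) (l m : Wd α) (h : k ≤ lcp l m) : l.take k = m.take k := by
  induction k generalizing l m with
  | zero => simp
  | succ k ih =>
    cases l with
    | nil => simp at h
    | cons a l =>
      cases m with
      | nil => simp at h
      | cons b m =>
        rw [lcp_cons_cons] at h
        by_cases hab : a = b
        · rw [if_pos hab] at h
          simp [hab, ih l m (by omega)]
        · simp [hab] at h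

lemma lcp_drop (k : ℕ) (l m : Wd α) (h : k ≤ lcp l m) :
    lcp (l.drop k) (m.drop k) = lcp l m - k := by
  have h1 := lcp_append (l.take k) (l.drop k) (m.drop k)
  have h2 : (l.take k).length = k := by
    have := lcp_le_left l m
    simp; omega
  rw [List.take_append_drop, h2] at h1
  conv at h1 => lhs; rw [take_eq_of_le_lcp k l m h, List.take_append_drop]
  omega

section signs
variable [TwoLetters α]

/-- sign of the letter number `L` (counted from zero) of a word -/
noncomputable def u (L : ℕ) (l : Wd α) : ℝ :=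
  match l[L]? with
  | some a => if a.1 = TwoLetters.a then 1 else -1
  | none => 0

lemma u_congr (L : ℕ) (l m : Wd α) (h : l[L]? = m[L]?) : u L l = u L m := by
  unfold u; rw [h]

lemma abs_u_le (L : ℕ) (l : Wd α) : |u L l| ≤ 1 := by
  unfold u
  split
  · split_ifs <;> simp
  · simp

variable (w : ℕ → ℝ)

/-- the piece of scale `J` of the function `H` -/
noncomputable def HJ (J : ℕ) (l m : Wd α) : ℝ :=
  if 4 ^ J ≤ lcp l m then w J * (u (2 * 4 ^ J) l - u (2 * 4 ^ J) m) else 0

/-- the unbounded cochain -/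
noncomputable def H (l m : Wd α) : ℝ := ∑ J ∈ Finset.range (lcp l m), HJ w J l m

lemma HJ_eq_zero (J : ℕ) (l m : Wd α) (h : lcp l m ≤ J) : HJ w J l m = 0 := by
  unfold HJ
  rw [if_neg]
  have : J < 4 ^ J := Nat.lt_pow_self (by norm_num)
  omega

lemma H_eq (N : ℕ) (l m : Wd α) (h : lcp l m ≤ N) : H w l m = ∑ J ∈ Finset.range N, HJ w J l m := by
  unfold H
  apply Finset.sum_subset
  · intro x hx
    simp only [Finset.mem_range] at hx ⊢
    omega
  · intro x _ hx
    simp only [Finset.mem_range, not_lt] at hx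
    exact HJ_eq_zero w x l m hx

lemma H_eq_zero (l m : Wd α) (h : lcp l m = 0) : H w l m = 0 := by
  unfold H; rw [h]; simp

/-- the coboundary of `H` -/
noncomputable def D (l m r : Wd α) : ℝ := H w m r - H w l r + H w l m

/-- the piece of `D` of scale `J` -/
noncomputable def DJ (J : ℕ) (l m r : Wd α) : ℝ := HJ w J m r - HJ w J l r + HJ w J l m

/-- contribution of a pair that is close relative to a third word -/
noncomputable def AJ (J : ℕ) (x y z : Wd α) : ℝ :=
  if 4 ^ J ≤ lcp x y ∧ ¬ (4 ^ J ≤ lcp x z) then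
    w J * (u (2 * 4 ^ J) x - u (2 * 4 ^ J) y) else 0

lemma DJ_eq (J : ℕ) (l m r : Wd α) :
    DJ w J l m r = AJ w J m r l - AJ w J l r m + AJ w J l m r := by
  unfold DJ AJ HJ
  have t1 := lcp_trans (4 ^ J) l m r
  have t2 := lcp_trans (4 ^ J) m r l
  have t3 := lcp_trans (4 ^ J) r l m
  rw [lcp_comm r l, lcp_comm m l] at t2
  rw [lcp_comm r l, lcp_comm r m] at t3
  rw [lcp_comm m l]
  by_cases e1 : 4 ^ J ≤ lcp l m <;> by_cases e2 : 4 ^ J ≤ lcp m r <;>
    by_cases e3 : 4 ^ J ≤ lcp l r
  · simp only [e1, e2, e3, if_true, not_true_eq_false, and_false, if_false]; ring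
  · exact absurd (t1 e1 e2) e3
  · exact absurd (t3 e3 e1) e2
  · simp only [e1, e2, e3, if_true, not_true_eq_false, and_false, if_false, not_false_eq_true,
      and_true]
  · exact absurd (t2 e2 e3) e1
  · simp only [e1, e2, e3, if_true, not_true_eq_false, and_false, if_false, not_false_eq_true,
      and_true]
  · simp only [e1, e2, e3, if_true, not_true_eq_false, and_false, if_false, not_false_eq_true,
      and_true]
  · simp only [e1, e2, e3, if_true, not_true_eq_false, and_false, if_false, not_false_eq_true,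
      and_true]

/-- the sum of all the pieces of a pair -/
noncomputable def A (N : ℕ) (x y z : Wd α) : ℝ := ∑ J ∈ Finset.range N, AJ w J x y z

lemma D_eq (N : ℕ) (l m r : Wd α) (h1 : lcp l m ≤ N) (h2 : lcp m r ≤ N) (h3 : lcp l r ≤ N) :
    D w l m r = A w N m r l - A w N l r m + A w N l m r := by
  unfold D A
  rw [H_eq w N _ _ h1, H_eq w N _ _ h2, H_eq w N _ _ h3, ← Finset.sum_sub_distrib,
    ← Finset.sum_add_distrib, ← Finset.sum_sub_distrib, ← Finset.sum_add_distrib]
  exact Finset.sum_congr rfl fun J _ => DJ_eq w J l m r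

/-- the condition under which `AJ J x y z` can be nonzero -/
def Cnd (J : ℕ) (x y z : Wd α) : Prop :=
  4 ^ J ≤ lcp x y ∧ ¬ (4 ^ J ≤ lcp x z) ∧ lcp x y ≤ 2 * 4 ^ J

lemma AJ_eq_zero (J : ℕ) (x y z : Wd α) (h : ¬ Cnd J x y z) : AJ w J x y z = 0 := by
  unfold AJ
  split_ifs with h1
  · have h2 : 2 * 4 ^ J < lcp x y := by
      by_contra h3
      exact h ⟨h1.1, h1.2, by omega⟩
    rw [u_congr _ _ _ (getElem?_eq_of_lt_lcp _ _ _ h2)]
    ring
  · rfl

lemma abs_usub_le (L : ℕ) (x y : Wd α) : |u L x - u L y| ≤ 2 := by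
  have h1 := abs_le.1 (abs_u_le L x)
  have h2 := abs_le.1 (abs_u_le L y)
  rw [abs_le]
  constructor <;> linarith [h1.1, h1.2, h2.1, h2.2]

lemma wu_pow_le (p : ℝ) (hp : 1 ≤ p) (J L : ℕ) (x y : Wd α) :
    |w J * (u L x - u L y)| ^ p ≤ 2 ^ p * |w J| ^ p := by
  rw [abs_mul, Real.mul_rpow (abs_nonneg _) (abs_nonneg _), mul_comm]
  have h := Real.rpow_le_rpow (abs_nonneg _) (abs_usub_le L x y) (by linarith : (0:ℝ) ≤ p)
  exact mul_le_mul_of_nonneg_right h (Real.rpow_nonneg (abs_nonneg _) _)

/-- the bound for the weights -/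
def Wb (p M : ℝ) : Prop := 0 ≤ M ∧ ∀ J, |w J| ^ p ≤ M * (1 / 4 : ℝ) ^ J

lemma AJ_pow_le (p M : ℝ) (hp : 1 ≤ p) (hw : Wb w p M) (J : ℕ) (x y z : Wd α) :
    |AJ w J x y z| ^ p ≤ 2 ^ p * M * (1 / 4 : ℝ) ^ J := by
  unfold AJ
  have h2 : (0 : ℝ) ≤ 2 ^ p := by positivity
  have hM := hw.1
  split_ifs
  · refine (wu_pow_le w p hp J _ x y).trans ?_
    rw [mul_assoc]
    exact mul_le_mul_of_nonneg_left (hw.2 J) h2
  · rw [abs_zero, Real.zero_rpow (by linarith)]
    positivity

lemma Cnd_unique (J K : ℕ) (x y z : Wd α) (h1 : Cnd J x y z) (h2 : Cnd K x y z) : J = K := by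
  by_contra hne
  rcases Nat.lt_or_gt_of_ne hne with h | h
  · have h3 : (4 : ℕ) ^ (J + 1) ≤ 4 ^ K := Nat.pow_le_pow_right (by norm_num) h
    have h4 := h1.2.2
    have h5 := h2.1
    have h6 : 0 < 4 ^ J := by positivity
    rw [pow_succ] at h3
    omega
  · have h3 : (4 : ℕ) ^ (K + 1) ≤ 4 ^ J := Nat.pow_le_pow_right (by norm_num) h
    have h4 := h2.2.2
    have h5 := h1.1
    have h6 : 0 < 4 ^ K := by positivity
    rw [pow_succ] at h3
    omega

open Classical in
lemma A_pow_le (p M : ℝ) (hp : 1 ≤ p) (hw : Wb w p M) (N : ℕ) (x y z : Wd α) :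
    |A w N x y z| ^ p ≤
      ∑ J ∈ Finset.range N, (if Cnd J x y z then 2 ^ p * M * (1 / 4 : ℝ) ^ J else 0) := by
  have hM := hw.1
  have hnn : ∀ J ∈ Finset.range N,
      (0:ℝ) ≤ (if Cnd J x y z then 2 ^ p * M * (1 / 4 : ℝ) ^ J else 0) := by
    intro J _
    split_ifs <;> positivity
  by_cases hex : ∃ J ∈ Finset.range N, Cnd J x y z
  · obtain ⟨J, hJ, hc⟩ := hex
    have h1 : A w N x y z = AJ w J x y z := by
      unfold A
      rw [Finset.sum_eq_single J]
      · intro K _ hK
        exact AJ_eq_zero w K x y z fun h => hK (Cnd_unique K J x y z h hc)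
      · intro h; exact absurd hJ h
    rw [h1]
    calc |AJ w J x y z| ^ p ≤ 2 ^ p * M * (1 / 4 : ℝ) ^ J := AJ_pow_le w p M hp hw J x y z
      _ = (if Cnd J x y z then 2 ^ p * M * (1 / 4 : ℝ) ^ J else 0) := by rw [if_pos hc]
      _ ≤ _ := Finset.single_le_sum hnn hJ
  · have h1 : A w N x y z = 0 := by
      unfold A
      apply Finset.sum_eq_zero
      intro J hJ
      exact AJ_eq_zero w J x y z fun h => hex ⟨J, hJ, h⟩
    rw [h1, abs_zero, Real.zero_rpow (by linarith)]
    exact Finset.sum_nonneg hnn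

end signs

lemma geom_bound (t : ℕ) (N : ℕ) :
    ∑ J ∈ Finset.range N, (if t < 2 * 4 ^ J then (t : ℝ) * (1 / 4 : ℝ) ^ J else 0) ≤ 8 / 3 := by
  have key : ∑ J ∈ Finset.range N, (if t < 2 * 4 ^ J then (t : ℝ) * (1 / 4 : ℝ) ^ J else 0) +
      4 / 3 * min 2 ((t : ℝ) * (1 / 4 : ℝ) ^ N) ≤ 8 / 3 := by
    induction N with
    | zero =>
      simp only [Finset.range_zero, Finset.sum_empty, pow_zero, mul_one, zero_add]
      have := min_le_left (2 : ℝ) (t : ℝ)
      linarith
    | succ N ih =>
      rw [Finset.sum_range_succ]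
      have hp : (0 : ℝ) < (1 / 4) ^ N := by positivity
      have hq : (1 / 4 : ℝ) ^ N * 4 ^ N = 1 := by
        rw [← mul_pow]; norm_num
      have hp4 : (0 : ℝ) < 4 ^ N := by positivity
      split_ifs with h
      · have h1 : (t : ℝ) * (1 / 4 : ℝ) ^ N ≤ 2 := by
          have h2 : (t : ℝ) < 2 * 4 ^ N := by exact_mod_cast h
          nlinarith
        rw [min_eq_right h1] at ih
        have h3 : min 2 ((t : ℝ) * (1 / 4 : ℝ) ^ (N + 1)) ≤ (t : ℝ) * (1 / 4 : ℝ) ^ (N + 1) :=
          min_le_right _ _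
        rw [pow_succ] at h3 ⊢
        nlinarith
      · have h1 : 2 ≤ (t : ℝ) * (1 / 4 : ℝ) ^ N := by
          have h2 : (2 * 4 ^ N : ℝ) ≤ t := by exact_mod_cast not_lt.1 h
          nlinarith
        rw [min_eq_left h1] at ih
        have h3 : min 2 ((t : ℝ) * (1 / 4 : ℝ) ^ (N + 1)) ≤ 2 := min_le_left _ _
        linarith
  have h2 : (0 : ℝ) ≤ min 2 ((t : ℝ) * (1 / 4 : ℝ) ^ N) := by positivity
  linarith

variable [TwoLetters α] (w : ℕ → ℝ)

open Classical in
/-- the sum along a branch of the contributions of one pair -/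
lemma sum_A_pow_le (p M : ℝ) (hp : 1 ≤ p) (hw : Wb w p M) (N P : ℕ) (x y z : Wd α)
    (hxy : P ≤ lcp x y) (hxz : P ≤ lcp x z) :
    ∑ k ∈ Finset.range P, |A w N (x.drop k) (y.drop k) (z.drop k)| ^ p ≤
      2 ^ p * M * (8 / 3) := by
  have hM := hw.1
  have h2p : (0 : ℝ) ≤ 2 ^ p * M := by positivity
  have h1 : ∑ k ∈ Finset.range P, |A w N (x.drop k) (y.drop k) (z.drop k)| ^ p ≤
      ∑ k ∈ Finset.range P, ∑ J ∈ Finset.range N,
        (if Cnd J (x.drop k) (y.drop k) (z.drop k) then 2 ^ p * M * (1 / 4 : ℝ) ^ J else 0) :=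
    Finset.sum_le_sum fun k _ => A_pow_le w p M hp hw N _ _ _
  refine h1.trans ?_
  rw [Finset.sum_comm]
  have h2 : ∀ J ∈ Finset.range N, ∑ k ∈ Finset.range P,
      (if Cnd J (x.drop k) (y.drop k) (z.drop k) then 2 ^ p * M * (1 / 4 : ℝ) ^ J else 0) ≤
      2 ^ p * M * (if lcp x y - lcp x z < 2 * 4 ^ J then
        ((lcp x y - lcp x z : ℕ) : ℝ) * (1 / 4 : ℝ) ^ J else 0) := by
    intro J _
    rw [← Finset.sum_filter, Finset.sum_const, nsmul_eq_mul]
    have hmem : ∀ k ∈ (Finset.range P).filter (fun k => Cnd J (x.drop k) (y.drop k) (z.drop k)),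
        k < lcp x z ∧ 4 ^ J ≤ lcp x y - k ∧ ¬ (4 ^ J ≤ lcp x z - k) ∧
          lcp x y - k ≤ 2 * 4 ^ J := by
      intro k hk
      rw [Finset.mem_filter, Finset.mem_range] at hk
      obtain ⟨hk1, hk2, hk3, hk4⟩ := hk
      rw [lcp_drop k x y (by omega)] at hk2 hk4
      rw [lcp_drop k x z (by omega)] at hk3
      exact ⟨by omega, hk2, hk3, hk4⟩
    have hp : (0 : ℝ) < (1 / 4) ^ J := by positivity
    have hpos : 0 < 4 ^ J := by positivity
    rcases ((Finset.range P).filter
      (fun k => Cnd J (x.drop k) (y.drop k) (z.drop k))).eq_empty_or_nonempty with he | ⟨k, hk⟩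
    · rw [he, Finset.card_empty, Nat.cast_zero, zero_mul]
      split_ifs <;> positivity
    · have hk' := hmem k hk
      have ht : lcp x y - lcp x z < 2 * 4 ^ J := by omega
      rw [if_pos ht]
      have hsub : (Finset.range P).filter (fun k => Cnd J (x.drop k) (y.drop k) (z.drop k)) ⊆
          Finset.Ico (lcp x z + 1 - 4 ^ J) (lcp x y + 1 - 4 ^ J) := by
        intro i hi
        have := hmem i hi
        rw [Finset.mem_Ico]
        omega
      have hcard := Finset.card_le_card hsub
      rw [Nat.card_Ico] at hcard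
      have hcard2 : ((Finset.range P).filter
          (fun k => Cnd J (x.drop k) (y.drop k) (z.drop k))).card ≤ lcp x y - lcp x z := by
        omega
      have hcard3 : (((Finset.range P).filter
          (fun k => Cnd J (x.drop k) (y.drop k) (z.drop k))).card : ℝ) ≤
            ((lcp x y - lcp x z : ℕ) : ℝ) := by exact_mod_cast hcard2
      calc _ ≤ ((lcp x y - lcp x z : ℕ) : ℝ) * (2 ^ p * M * (1 / 4 : ℝ) ^ J) :=
            mul_le_mul_of_nonneg_right hcard3 (by positivity)
        _ = _ := by ring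
  calc _ ≤ ∑ J ∈ Finset.range N, 2 ^ p * M * (if lcp x y - lcp x z < 2 * 4 ^ J then
        ((lcp x y - lcp x z : ℕ) : ℝ) * (1 / 4 : ℝ) ^ J else 0) := Finset.sum_le_sum h2
    _ = 2 ^ p * M * ∑ J ∈ Finset.range N, (if lcp x y - lcp x z < 2 * 4 ^ J then
        ((lcp x y - lcp x z : ℕ) : ℝ) * (1 / 4 : ℝ) ^ J else 0) := by rw [Finset.mul_sum]
    _ ≤ 2 ^ p * M * (8 / 3) :=
        mul_le_mul_of_nonneg_left (geom_bound (lcp x y - lcp x z) N) h2p

lemma three_pow (p : ℝ) (hp : 1 ≤ p) (x y z : ℝ) (hx : 0 ≤ x) (hy : 0 ≤ y) (hz : 0 ≤ z) :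
    (x + y + z) ^ p ≤ 3 ^ p * (x ^ p + y ^ p + z ^ p) := by
  have hp0 : (0 : ℝ) ≤ p := by linarith
  set m := max x (max y z) with hm
  have hm0 : 0 ≤ m := le_trans hx (le_max_left _ _)
  have h1 : x + y + z ≤ 3 * m := by
    have := le_max_left x (max y z)
    have := (le_max_left y z).trans (le_max_right x (max y z))
    have := (le_max_right y z).trans (le_max_right x (max y z))
    linarith
  have h2 : (x + y + z) ^ p ≤ (3 * m) ^ p := Real.rpow_le_rpow (by linarith) h1 hp0
  rw [Real.mul_rpow (by norm_num) hm0] at h2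
  refine h2.trans (mul_le_mul_of_nonneg_left ?_ (by positivity))
  have ex := Real.rpow_nonneg hx p
  have ey := Real.rpow_nonneg hy p
  have ez := Real.rpow_nonneg hz p
  rcases max_choice x (max y z) with h | h
  · rw [hm, h]; linarith
  · rw [hm, h]
    rcases max_choice y z with h' | h'
    · rw [h']; linarith
    · rw [h']; linarith

lemma three_pow_abs (p : ℝ) (hp : 1 ≤ p) (x y z : ℝ) :
    |x - y + z| ^ p ≤ 3 ^ p * (|x| ^ p + |y| ^ p + |z| ^ p) := by
  have h1 : |x - y + z| ≤ |x| + |y| + |z| :=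
    (abs_add_le _ _).trans (add_le_add (abs_sub _ _) le_rfl)
  exact (Real.rpow_le_rpow (abs_nonneg _) h1 (by linarith)).trans
    (three_pow p hp _ _ _ (abs_nonneg _) (abs_nonneg _) (abs_nonneg _))

/-- the constant of the estimates -/
noncomputable def KK (p M : ℝ) : ℝ := 3 ^ p * (3 * (2 ^ p * M * (8 / 3)))

lemma KK_nonneg (p M : ℝ) (hM : 0 ≤ M) : 0 ≤ KK p M := by unfold KK; positivity

/-- the sum along a branch of the powers of `D` -/
lemma sum_D_pow_le (p M : ℝ) (hp : 1 ≤ p) (hw : Wb w p M) (P : ℕ) (l m r : Wd α)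
    (h1 : P ≤ lcp l m) (h2 : P ≤ lcp m r) (h3 : P ≤ lcp l r) :
    ∑ k ∈ Finset.range P, |D w (l.drop k) (m.drop k) (r.drop k)| ^ p ≤ KK p M := by
  set N := lcp l m + lcp m r + lcp l r with hN
  have hD : ∀ k ∈ Finset.range P, |D w (l.drop k) (m.drop k) (r.drop k)| ^ p ≤
      3 ^ p * (|A w N (m.drop k) (r.drop k) (l.drop k)| ^ p +
        |A w N (l.drop k) (r.drop k) (m.drop k)| ^ p +
        |A w N (l.drop k) (m.drop k) (r.drop k)| ^ p) := by
    intro k hk
    rw [Finset.mem_range] at hk
    rw [D_eq w N (l.drop k) (m.drop k) (r.drop k)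
      (by rw [lcp_drop k l m (by omega)]; omega)
      (by rw [lcp_drop k m r (by omega)]; omega)
      (by rw [lcp_drop k l r (by omega)]; omega)]
    exact three_pow_abs p hp _ _ _
  refine (Finset.sum_le_sum hD).trans ?_
  rw [← Finset.mul_sum, Finset.sum_add_distrib, Finset.sum_add_distrib]
  have e1 := sum_A_pow_le w p M hp hw N P m r l h2 (by rw [lcp_comm]; exact h1)
  have e2 := sum_A_pow_le w p M hp hw N P l r m h3 h1
  have e3 := sum_A_pow_le w p M hp hw N P l m r h1 h3
  unfold KK
  refine mul_le_mul_of_nonneg_left ?_ (by positivity)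
  linarith

end Pool.Agent.Helper10.HB
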